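import Pool.Agent.Results.MP_9dddc4_co.UkExponent

/-! `U_2(n,r)` for odd `r = 2t+1`: definitions and the statements of all tasks. -/

set_option linter.unusedVariables false

namespace H773W

open Finset Pool.Agent.Results.MP_9dddc4_co.UkExponent

/-- an edge set on the vertex set `Fin n` -/
abbrev ES (n : ℕ) := Finset (Finset (Fin n))

/-- `H` contains a sunflower with `c` petals and a kernel of size `i` -/
def SF {n : ℕ} (H : ES n) (i c : ℕ) : Prop :=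
  ∃ (X : Finset (Fin n)) (M : ES n), X.card = i ∧ M ⊆ H ∧ M.card = c ∧ (∀ f ∈ M, X ⊆ f) ∧
    ∀ f ∈ M, ∀ g ∈ M, f ≠ g → f ∩ g = X

/-- SFC: common sunflower -/
def S_SFC : Prop := ∀ (n r i c : ℕ) (H : Fin 2 → ES n), (∀ j, IsRGraph r (H j)) →
  (∀ j, SF (H j) i c) → Common H c

/-- SFB: a bound by sunflower numbers -/
def S_SFB : Prop := ∀ (n r : ℕ) (H : ES n) (c : ℕ → ℕ), IsRGraph r H →
  (∀ i < r, ¬ SF H i (c i + 1)) → H.card ≤ r.factorial * ∏ i ∈ range r, c i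

/-- SFN: trivial facts -/
def S_SFN : Prop := ∀ (n r i c : ℕ) (H : ES n), IsRGraph r H → i < r →
  (SF H i c → c ≤ n) ∧ (SF H i c → ∀ c' ≤ c, SF H i c') ∧ (H.Nonempty → SF H i 1)

/-- COS: common sunflowers in two hypergraphs -/
def S_COS : Prop := ∀ (n t e : ℕ) (H : Fin 2 → ES n), 1 ≤ e →
  (∀ j, IsRGraph (2 * t + 1) (H j)) → (∀ j, (H j).card = e) →
  ∃ s : ℕ, 1 ≤ s ∧ Common H s ∧ e ≤ (2 * t + 1).factorial * s ^ (t + 1) * n ^ t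

/-- the exponent `(r^2-1)/(2r)` for `r = 2t+1` -/
noncomputable def ex (t : ℕ) : ℝ := 2 * (t : ℝ) * (t + 1) / (2 * t + 1)

/-- the critical number of edges -/
noncomputable def E0 (n t : ℕ) : ℝ := (n : ℝ) ^ ((2 * (t : ℝ) ^ 2 + 2 * t + 1) / (2 * t + 1))

/-- POT: the potential -/
def S_POT : Prop := ∀ t : ℕ, 1 ≤ t → ∃ C : ℝ, 0 < C ∧ ∀ n : ℕ, 1 ≤ n →
  ∃ Φ : ℕ → ℝ, 0 ≤ Φ 0 ∧ (∀ e, Φ e ≤ C * (n : ℝ) ^ ex t) ∧
    ∀ e m : ℕ, 1 ≤ m → m ≤ e →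
      ((e : ℝ) ≤ E0 n t → (e : ℝ) ≤ (2 * t + 1).factorial * (m : ℝ) ^ (t + 1) * (n : ℝ) ^ t) →
      (E0 n t < e → (e : ℝ) ^ 2 ≤ m * (n : ℝ) ^ (2 * t + 1)) → Φ (e - m) + 1 ≤ Φ e

/-- UB: the upper bound -/
def S_UB : Prop := ∀ t : ℕ, 1 ≤ t → ∃ C : ℝ, 0 < C ∧ ∀ n : ℕ, 1 ≤ n →
  (U 2 n (2 * t + 1) : ℝ) ≤ C * (n : ℝ) ^ ex t

/-- RG: a `(t+1)`-graph without dense small pieces -/
def S_RG : Prop := ∀ (n m T E t : ℕ) (X : Finset (Fin n)), 1 ≤ n → X.card = t →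
  E ≤ (n - t).choose (t + 1) →
  n ^ m * (m ^ (t + 1)).choose T * E ^ T < ((n - t).choose (t + 1)) ^ T →
  ∃ G : ES n, (∀ p ∈ G, p.card = t + 1 ∧ Disjoint p X) ∧ G.card = E ∧
    ∀ W : Finset (Fin n), W.card ≤ m → (G.filter (fun p => p ⊆ W)).card < T

/-- PK: packing of `m`-sets (polynomials of degree less than `t`) -/
def S_PK : Prop := ∀ (n t m p : ℕ), p.Prime → 1 ≤ t → t ≤ m → m ≤ p → m * p ≤ n →
  ∃ S : ES n, S.card = p ^ t ∧ (∀ s ∈ S, s.card = m) ∧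
    ∀ s ∈ S, ∀ s' ∈ S, s ≠ s' → (s ∩ s').card < t

/-- LBR: the combinatorial lower bound -/
def S_LBR : Prop := ∀ (n t m T : ℕ) (X : Finset (Fin n)) (S G : ES n), 1 ≤ t → t ≤ m →
  X.card = t → (∀ s ∈ S, s.card = m) → (∀ s ∈ S, ∀ s' ∈ S, s ≠ s' → (s ∩ s').card < t) →
  (∀ p ∈ G, p.card = t + 1 ∧ Disjoint p X) → G.card = S.card * m.choose (2 * t + 1) →
  (∀ W : Finset (Fin n), W.card ≤ m → (G.filter (fun p => p ⊆ W)).card < T) →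
  S.card * m.choose (2 * t + 1) ≤ U 2 n (2 * t + 1) * T

/-- ARR: the arithmetic of the lower bound -/
def S_ARR : Prop := ∀ t : ℕ, 1 ≤ t → ∃ c : ℝ, 0 < c ∧ ∀ᶠ n : ℕ in Filter.atTop, ∃ m p T : ℕ,
  t ≤ m ∧ t ≤ n ∧ p.Prime ∧ m ≤ p ∧ m * p ≤ n ∧ 1 ≤ T ∧
  p ^ t * m.choose (2 * t + 1) ≤ (n - t).choose (t + 1) ∧
  n ^ m * (m ^ (t + 1)).choose T * (p ^ t * m.choose (2 * t + 1)) ^ T <
    ((n - t).choose (t + 1)) ^ T ∧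
  c * (n : ℝ) ^ ex t / (Real.log n) ^ (((t : ℝ) + 1) / (2 * t + 1)) * T ≤
    ((p ^ t * m.choose (2 * t + 1) : ℕ) : ℝ)

/-- LB: the lower bound -/
def S_LB : Prop := ∀ t : ℕ, 1 ≤ t → ∃ c : ℝ, 0 < c ∧ ∀ᶠ n : ℕ in Filter.atTop,
  c * (n : ℝ) ^ ex t / (Real.log n) ^ (((t : ℝ) + 1) / (2 * t + 1)) ≤ (U 2 n (2 * t + 1) : ℝ)

end H773W
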