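import Pool.Agent.H773R2.UR.Defs

/-! Task ARR: the arithmetic of the lower bound. -/

set_option linter.unusedVariables false

namespace H773W

open Finset Pool.Agent.Results.MP_9dddc4_co.UkExponent

/-- the real size of the blocks -/
noncomputable def ARR_x (t n : ℕ) : ℝ := ((n:ℝ) * Real.log n) ^ (((2*t+1 : ℕ) : ℝ)⁻¹)

theorem ARR_ev (t : ℕ) : ∀ᶠ n : ℕ in Filter.atTop, 1 ≤ Real.log n ∧
    (Real.log n)^(t+1) * 2^((t+1)*(2*t+1)) ≤ (n:ℝ) ∧ 4*t+4 ≤ ⌊ARR_x t n⌋₊ ∧ 4*t+4 ≤ n := by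
  have h1 : ∀ᶠ n : ℕ in Filter.atTop, 1 ≤ Real.log n :=
    (Real.tendsto_log_atTop.comp tendsto_natCast_atTop_atTop).eventually_ge_atTop 1
  have h2 : ∀ᶠ n : ℕ in Filter.atTop, (Real.log n)^(t+1) * 2^((t+1)*(2*t+1)) ≤ (n:ℝ) := by
    have hO := (Real.isLittleO_pow_log_id_atTop (n := t+1)).def
      (c := 1/2^((t+1)*(2*t+1))) (by positivity)
    have hO2 := (tendsto_natCast_atTop_atTop (R := ℝ)).eventually hO
    filter_upwards [hO2, h1] with n hn hl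
    have hp : (0:ℝ) < 2^((t+1)*(2*t+1)) := by positivity
    have h0 : 0 ≤ Real.log n := by linarith
    rw [Real.norm_eq_abs, abs_of_nonneg (pow_nonneg h0 _), id, Real.norm_natCast] at hn
    calc (Real.log n)^(t+1) * 2^((t+1)*(2*t+1))
        ≤ (1/2^((t+1)*(2*t+1)) * (n:ℝ)) * 2^((t+1)*(2*t+1)) := by gcongr
      _ = n := by field_simp
  have h3 : Filter.Tendsto (fun n : ℕ => ARR_x t n) Filter.atTop Filter.atTop := by
    unfold ARR_x
    refine (tendsto_rpow_atTop (by positivity)).comp ?_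
    exact tendsto_natCast_atTop_atTop.atTop_mul_atTop₀
      (Real.tendsto_log_atTop.comp tendsto_natCast_atTop_atTop)
  have h4 := (tendsto_nat_floor_atTop.comp h3).eventually_ge_atTop (4*t+4)
  filter_upwards [h1, h2, h4, Filter.eventually_ge_atTop (4*t+4)] with n a b c d
  exact ⟨a, b, c, d⟩

theorem ARR_two_m (t n m : ℕ) (ht : 1 ≤ t) (hn : 1 ≤ n) (L : ℝ) (hL1 : 1 ≤ L)
    (hm1 : (m:ℝ)^(2*t+1) ≤ n * L) (hlog : L^(t+1) * 2^((t+1)*(2*t+1)) ≤ (n:ℝ)) :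
    (2*(m:ℝ))^(t+1) ≤ n := by
  have hn1 : (1:ℝ) ≤ n := by exact_mod_cast hn
  have h1 : ((2*(m:ℝ))^(t+1))^(2*t+1) ≤ (n:ℝ)^(2*t+1) := by
    calc ((2*(m:ℝ))^(t+1))^(2*t+1) = 2^((t+1)*(2*t+1)) * ((m:ℝ)^(2*t+1))^(t+1) := by
          rw [← pow_mul, mul_pow, ← pow_mul, mul_comm (2*t+1) (t+1)]
      _ ≤ 2^((t+1)*(2*t+1)) * (n * L)^(t+1) := by gcongr
      _ = (n:ℝ)^(t+1) * (L^(t+1) * 2^((t+1)*(2*t+1))) := by rw [mul_pow]; ring
      _ ≤ (n:ℝ)^(t+1) * n := by gcongr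
      _ ≤ (n:ℝ)^(t+1) * n^t := by
          gcongr
          calc (n:ℝ) = n^1 := (pow_one _).symm
            _ ≤ n^t := pow_le_pow_right₀ hn1 ht
      _ = (n:ℝ)^(2*t+1) := by rw [← pow_add]; congr 1; ring
  exact le_of_pow_le_pow_left₀ (by omega) (by positivity) h1

theorem ARR_ratio (t n m p : ℕ) (hn : 4*t+4 ≤ n) (hpm : m * p ≤ n) :
    ((p^t * m.choose (2*t+1) : ℕ) : ℝ) * n ≤
      (((n - t).choose (t+1) : ℕ) : ℝ) * (2*(m:ℝ))^(t+1) := by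
  have hf : (0:ℝ) < ((2*t+1).factorial : ℝ) := by exact_mod_cast Nat.factorial_pos _
  have hf2 : (0:ℝ) < ((t+1).factorial : ℝ) := by exact_mod_cast Nat.factorial_pos _
  have hff : ((t+1).factorial : ℝ) ≤ ((2*t+1).factorial : ℝ) := by
    exact_mod_cast Nat.factorial_le (by omega)
  have hmp : (m:ℝ) * p ≤ n := by exact_mod_cast hpm
  have hE : ((p^t * m.choose (2*t+1) : ℕ) : ℝ) ≤ (n:ℝ)^t * m^(t+1) / (2*t+1).factorial := by
    have h1 : (m.choose (2*t+1) : ℝ) ≤ (m:ℝ)^(2*t+1) / (2*t+1).factorial :=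
      Nat.choose_le_pow_div _ _
    push_cast
    calc (p:ℝ)^t * (m.choose (2*t+1) : ℝ) ≤ (p:ℝ)^t * ((m:ℝ)^(2*t+1) / (2*t+1).factorial) := by
          gcongr
      _ = ((m:ℝ) * p)^t * m^(t+1) / (2*t+1).factorial := by
          rw [mul_pow, show 2*t+1 = t + (t+1) by ring, pow_add]
          ring
      _ ≤ (n:ℝ)^t * m^(t+1) / (2*t+1).factorial := by gcongr
  have hΩ : (n:ℝ)^(t+1) / (t+1).factorial ≤ (((n - t).choose (t+1) : ℕ) : ℝ) * 2^(t+1) := by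
    have h1 : (((n - t) + 1 - (t+1) : ℕ) ^ (t+1) : ℝ) / (t+1).factorial ≤
        (((n - t).choose (t+1) : ℕ) : ℝ) := Nat.pow_le_choose _ _
    have h2 : (n:ℝ)/2 ≤ (((n - t) + 1 - (t+1) : ℕ) : ℝ) := by
      have h3 : n ≤ 2 * ((n - t) + 1 - (t+1)) := by omega
      have h4 : (n:ℝ) ≤ 2 * (((n - t) + 1 - (t+1) : ℕ) : ℝ) := by exact_mod_cast h3
      linarith
    calc (n:ℝ)^(t+1) / (t+1).factorial = ((n:ℝ)/2)^(t+1) / (t+1).factorial * 2^(t+1) := by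
          rw [div_pow]; field_simp
      _ ≤ (((n - t) + 1 - (t+1) : ℕ) ^ (t+1) : ℝ) / (t+1).factorial * 2^(t+1) := by
          gcongr
      _ ≤ (((n - t).choose (t+1) : ℕ) : ℝ) * 2^(t+1) := by gcongr
  calc ((p^t * m.choose (2*t+1) : ℕ) : ℝ) * n
      ≤ (n:ℝ)^t * m^(t+1) / (2*t+1).factorial * n := by gcongr
    _ = (n:ℝ)^(t+1) / (2*t+1).factorial * m^(t+1) := by rw [pow_succ (n:ℝ) t]; ring
    _ ≤ (n:ℝ)^(t+1) / (t+1).factorial * m^(t+1) := by gcongr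
    _ ≤ (((n - t).choose (t+1) : ℕ) : ℝ) * 2^(t+1) * m^(t+1) := by gcongr
    _ = _ := by rw [mul_pow]; ring

theorem ARR_B (t n m p T : ℕ) (L : ℝ) (hL : L = Real.log n) (hL1 : 1 ≤ L)
    (hn : 4*t+4 ≤ n) (hm : 1 ≤ m) (hm1 : (m:ℝ)^(2*t+1) ≤ n * L) (hpm : m * p ≤ n)
    (hT1 : 2^(t+5) * m * L ≤ (T:ℝ)) :
    n ^ m * (m ^ (t + 1)).choose T * (p ^ t * m.choose (2 * t + 1)) ^ T <
    ((n - t).choose (t + 1)) ^ T := by
  have hr := ARR_ratio t n m p hn hpm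
  have hc := choose_le_three (m^(t+1)) T
  have hn0 : (0:ℝ) < n := by have : 0 < n := by omega
                             exact_mod_cast this
  have hm0 : (1:ℝ) ≤ m := by exact_mod_cast hm
  have hmL : 0 < (m:ℝ) * L := by positivity
  have h2 : (m:ℝ) * L < T := by
    refine lt_of_lt_of_le ?_ hT1
    have h3 : (2:ℝ) ≤ 2^(t+5) := by
      calc (2:ℝ) = 2^1 := by norm_num
        _ ≤ 2^(t+5) := pow_le_pow_right₀ (by norm_num) (by omega)
    nlinarith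
  have hT0 : (0:ℝ) < T := hmL.trans h2
  have hΩ0 : (0:ℝ) < (((n - t).choose (t+1) : ℕ) : ℝ) := by
    have : 0 < (n - t).choose (t+1) := Nat.choose_pos (by omega)
    exact_mod_cast this
  -- `n^m < (16/3)^T`
  have h4 : (n:ℝ)^m < (16/3)^T := by
    have h5 : (n:ℝ)^m = Real.exp (m * L) := by
      rw [hL, mul_comm, Real.exp_mul, Real.exp_log hn0, Real.rpow_natCast]
    have h6 : Real.exp (T:ℝ) ≤ (16/3)^T := by
      have : Real.exp (T : ℝ) = (Real.exp 1) ^ T := by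
        rw [← Real.exp_nat_mul, mul_one]
      rw [this]
      gcongr
      exact Real.exp_one_lt_three.le.trans (by norm_num)
    rw [h5]
    exact lt_of_lt_of_le (Real.exp_lt_exp.2 h2) h6
  -- `3 a 2^(t+1) a ≤ (3/16) n T`
  have h7 : 3 * ((m:ℝ)^(t+1)) * (2 * (m:ℝ))^(t+1) ≤ 3/16 * (n * T) := by
    have h8 : (m:ℝ)^(t+1) * (m:ℝ)^(t+1) ≤ m * (n * L) := by
      calc (m:ℝ)^(t+1) * (m:ℝ)^(t+1) = m * (m:ℝ)^(2*t+1) := by
            rw [← pow_add, ← pow_succ']; congr 1; ring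
        _ ≤ m * (n * L) := by gcongr
    calc 3 * ((m:ℝ)^(t+1)) * (2 * (m:ℝ))^(t+1) = 3 * 2^(t+1) * ((m:ℝ)^(t+1) * (m:ℝ)^(t+1)) := by
          rw [mul_pow]; ring
      _ ≤ 3 * 2^(t+1) * (m * (n * L)) := by gcongr
      _ = 3/16 * (n * (2^(t+5) * m * L)) := by rw [pow_add 2 t 5, pow_add 2 t 1]; ring
      _ ≤ 3/16 * (n * T) := by gcongr
  have h8 : (n:ℝ)^m * (3 * ((m:ℝ)^(t+1)) * (2 * (m:ℝ))^(t+1))^T < (n * T)^T := by
    calc (n:ℝ)^m * (3 * ((m:ℝ)^(t+1)) * (2 * (m:ℝ))^(t+1))^T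
        ≤ (n:ℝ)^m * (3/16 * (n * T))^T := by gcongr
      _ < (16/3)^T * (3/16 * (n * T))^T := by gcongr
      _ = (n * T)^T := by rw [← mul_pow]; congr 1; ring
  have hfac : (0:ℝ) < (n * T)^T := by positivity
  have hreal : (n:ℝ) ^ m * ((m ^ (t + 1)).choose T : ℝ) *
      ((p ^ t * m.choose (2 * t + 1) : ℕ) : ℝ) ^ T < (((n - t).choose (t + 1) : ℕ) : ℝ) ^ T := by
    rw [← mul_lt_mul_iff_left₀ hfac]
    calc (n:ℝ) ^ m * ((m ^ (t + 1)).choose T : ℝ) *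
          ((p ^ t * m.choose (2 * t + 1) : ℕ) : ℝ) ^ T * (n * T)^T
        = (n:ℝ)^m * (((m ^ (t + 1)).choose T : ℝ) * (T:ℝ)^T) *
          (((p ^ t * m.choose (2 * t + 1) : ℕ) : ℝ) * n) ^ T := by
          rw [mul_pow (n:ℝ) T T, mul_pow _ (n:ℝ) T]; ring
      _ ≤ (n:ℝ)^m * (3 * ((m^(t+1) : ℕ) : ℝ))^T *
          ((((n - t).choose (t+1) : ℕ) : ℝ) * (2*(m:ℝ))^(t+1)) ^ T := by gcongr
      _ = (((n - t).choose (t + 1) : ℕ) : ℝ) ^ T *
          ((n:ℝ)^m * (3 * ((m:ℝ)^(t+1)) * (2 * (m:ℝ))^(t+1))^T) := by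
          push_cast
          rw [mul_pow (((n - t).choose (t+1) : ℕ) : ℝ), mul_pow (3 * (m:ℝ)^(t+1))]; ring
      _ < (((n - t).choose (t + 1) : ℕ) : ℝ) ^ T * (n * T)^T := by gcongr
  exact_mod_cast hreal

/-- the constant -/
noncomputable def ARR_c (t : ℕ) : ℝ :=
  1 / (2^t * (2^t * (2^(2*t+1) * (2*t+1).factorial) * 2^(t+6)))

theorem ARR_C (t n m p T : ℕ) (ht : 1 ≤ t) (hn : 4*t+4 ≤ n) (hm : 4*t+4 ≤ m)
    (hL1 : 1 ≤ Real.log n) (hx : ARR_x t n ≤ 2 * m) (hpn : n ≤ 2 * m * p)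
    (hT2 : (T:ℝ) ≤ 2^(t+6) * m * Real.log n) :
    ARR_c t * (n : ℝ) ^ ex t / (Real.log n) ^ (((t : ℝ) + 1) / (2 * t + 1)) * T ≤
    ((p ^ t * m.choose (2 * t + 1) : ℕ) : ℝ) := by
  set L := Real.log n with hL
  have hn0 : (0:ℝ) < n := by have : 0 < n := by omega
                             exact_mod_cast this
  have hm0 : (0:ℝ) < m := by have : 0 < m := by omega
                             exact_mod_cast this
  have hL0 : 0 < L := by linarith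
  have hnm : (n:ℝ) ≤ 2 * m * p := by exact_mod_cast hpn
  have hf : (0:ℝ) < ((2*t+1).factorial : ℝ) := by exact_mod_cast Nat.factorial_pos _
  -- lower bound of the number of edges
  have hC : (m:ℝ)^(2*t+1) / (2^(2*t+1) * (2*t+1).factorial) ≤ (m.choose (2*t+1) : ℝ) := by
    have h1 : ((m + 1 - (2*t+1) : ℕ) ^ (2*t+1) : ℝ) / (2*t+1).factorial ≤
        (m.choose (2*t+1) : ℝ) := Nat.pow_le_choose _ _
    have h2 : (m:ℝ)/2 ≤ ((m + 1 - (2*t+1) : ℕ) : ℝ) := by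
      have h3 : m ≤ 2 * (m + 1 - (2*t+1)) := by omega
      have h4 : (m:ℝ) ≤ 2 * ((m + 1 - (2*t+1) : ℕ) : ℝ) := by exact_mod_cast h3
      linarith
    calc (m:ℝ)^(2*t+1) / (2^(2*t+1) * (2*t+1).factorial)
        = ((m:ℝ)/2)^(2*t+1) / (2*t+1).factorial := by rw [div_pow]; field_simp
      _ ≤ ((m + 1 - (2*t+1) : ℕ) ^ (2*t+1) : ℝ) / (2*t+1).factorial := by gcongr
      _ ≤ _ := h1
  have hE : (n:ℝ)^t * m^(t+1) / (2^t * (2^(2*t+1) * (2*t+1).factorial)) ≤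
      ((p ^ t * m.choose (2 * t + 1) : ℕ) : ℝ) := by
    push_cast
    calc (n:ℝ)^t * m^(t+1) / (2^t * (2^(2*t+1) * (2*t+1).factorial))
        ≤ (2 * m * p)^t * m^(t+1) / (2^t * (2^(2*t+1) * (2*t+1).factorial)) := by gcongr
      _ = (p:ℝ)^t * ((m:ℝ)^(2*t+1) / (2^(2*t+1) * (2*t+1).factorial)) := by
          have e : (m:ℝ)^(2*t+1) = m^t * m^(t+1) := by rw [← pow_add]; congr 1; ring
          rw [mul_pow, mul_pow, e]
          field_simp
      _ ≤ (p:ℝ)^t * (m.choose (2*t+1) : ℝ) := by gcongr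
  -- the power of `x`
  have hxt : (n:ℝ) ^ ex t / L ^ (((t : ℝ) + 1) / (2 * t + 1)) * L = (n:ℝ)^t * (ARR_x t n)^t := by
    have ht2 : (2 * (t:ℝ) + 1) ≠ 0 := by positivity
    have e1 : (ARR_x t n)^t = (n:ℝ)^((t:ℝ)/(2*t+1)) * L^((t:ℝ)/(2*t+1)) := by
      unfold ARR_x
      rw [← Real.rpow_natCast, ← Real.rpow_mul (by positivity), Real.mul_rpow hn0.le hL0.le]
      have : (((2*t+1 : ℕ) : ℝ)⁻¹ * (t:ℝ)) = (t:ℝ)/(2*t+1) := by
        push_cast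
        rw [div_eq_inv_mul]
      rw [this]
    have e2 : (n:ℝ) ^ ex t = (n:ℝ)^t * (n:ℝ)^((t:ℝ)/(2*t+1)) := by
      rw [← Real.rpow_natCast, ← Real.rpow_add hn0]
      congr 1
      unfold ex
      field_simp
      ring
    have e3 : L = L ^ (((t : ℝ) + 1) / (2 * t + 1)) * L^((t:ℝ)/(2*t+1)) := by
      rw [← Real.rpow_add hL0]
      have : (((t : ℝ) + 1) / (2 * t + 1)) + (t:ℝ)/(2*t+1) = 1 := by
        field_simp
        ring
      rw [this, Real.rpow_one]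
    have hLp : 0 < L ^ (((t : ℝ) + 1) / (2 * t + 1)) := Real.rpow_pos_of_pos hL0 _
    rw [div_mul_eq_mul_div, div_eq_iff hLp.ne', e1, e2]
    nth_rewrite 1 [e3]
    ring
  have hx0 : 0 ≤ ARR_x t n := by unfold ARR_x; positivity
  have hLp : 0 < L ^ (((t : ℝ) + 1) / (2 * t + 1)) := Real.rpow_pos_of_pos hL0 _
  calc ARR_c t * (n : ℝ) ^ ex t / L ^ (((t : ℝ) + 1) / (2 * t + 1)) * T
      = ARR_c t * ((n : ℝ) ^ ex t / L ^ (((t : ℝ) + 1) / (2 * t + 1))) * T := by ring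
    _ ≤ ARR_c t * ((n : ℝ) ^ ex t / L ^ (((t : ℝ) + 1) / (2 * t + 1))) *
        (2^(t+6) * m * L) := by
        have : 0 ≤ ARR_c t := by unfold ARR_c; positivity
        gcongr
    _ = ARR_c t * 2^(t+6) * m * ((n:ℝ)^t * (ARR_x t n)^t) := by rw [← hxt]; ring
    _ ≤ ARR_c t * 2^(t+6) * m * ((n:ℝ)^t * (2 * m)^t) := by
        have : 0 ≤ ARR_c t := by unfold ARR_c; positivity
        gcongr
    _ = (n:ℝ)^t * m^(t+1) / (2^t * (2^(2*t+1) * (2*t+1).factorial)) := by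
        unfold ARR_c
        rw [mul_pow, pow_succ (m:ℝ) t]
        field_simp
    _ ≤ _ := hE

theorem ARR : S_ARR := by
  intro t ht
  refine ⟨ARR_c t, by unfold ARR_c; positivity, ?_⟩
  filter_upwards [ARR_ev t] with n ⟨hL1, hlog, hm, hn⟩
  set m := ⌊ARR_x t n⌋₊ with hmdef
  set L := Real.log n with hL
  have hn0 : (0:ℝ) < n := by have : 0 < n := by omega
                             exact_mod_cast this
  have hm0 : (0:ℝ) < m := by have : 0 < m := by omega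
                             exact_mod_cast this
  have hm1' : (1:ℝ) ≤ m := by have : 1 ≤ m := by omega
                              exact_mod_cast this
  have hx0 : 0 ≤ ARR_x t n := by unfold ARR_x; positivity
  have hmx : (m:ℝ) ≤ ARR_x t n := Nat.floor_le hx0
  have hxm : ARR_x t n < m + 1 := Nat.lt_floor_add_one _
  have hxp : (ARR_x t n)^(2*t+1) = n * L := by
    unfold ARR_x
    exact Real.rpow_inv_natCast_pow (by positivity) (by omega)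
  have hm1 : (m:ℝ)^(2*t+1) ≤ n * L := by
    rw [← hxp]
    gcongr
  have h2m := ARR_two_m t n m ht (by omega) L hL1 hm1 hlog
  have h2m' : (2*m)^(t+1) ≤ n := by exact_mod_cast h2m
  have h4m : 4 * m^2 ≤ n := by
    calc 4 * m^2 = (2*m)^2 := by ring
      _ ≤ (2*m)^(t+1) := Nat.pow_le_pow_right (by omega) (by omega)
      _ ≤ n := h2m'
  -- the prime
  have hN : n / (2*m) ≠ 0 := by
    have : 1 ≤ n / (2*m) := by
      rw [Nat.one_le_div_iff (by omega)]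
      nlinarith
    omega
  obtain ⟨p, hp, hp1, hp2⟩ := Nat.exists_prime_lt_and_le_two_mul (n / (2*m)) hN
  have hpm : m * p ≤ n := by
    calc m * p ≤ m * (2 * (n / (2*m))) := Nat.mul_le_mul_left _ hp2
      _ = (2*m) * (n/(2*m)) := by ring
      _ ≤ n := Nat.mul_div_le _ _
  have hpn : n ≤ 2 * m * p := by
    have h1 : n < (2*m) * (n/(2*m) + 1) := Nat.lt_mul_div_succ n (by omega)
    have h2 : (2*m) * (n/(2*m) + 1) ≤ (2*m) * p := Nat.mul_le_mul_left _ hp1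
    omega
  have hmp : m ≤ p := by
    have h1 : 2 * m * m ≤ n := by nlinarith
    by_contra hlt
    push Not at hlt
    have h3 : 2 * m * (p + 1) ≤ 2 * m * m := Nat.mul_le_mul_left _ hlt
    have h5 : m ≤ n/(2*m) := (Nat.le_div_iff_mul_le (by omega)).2 (by nlinarith)
    omega
  set T := ⌈(2:ℝ)^(t+5) * m * L⌉₊ with hT
  have hT1 : (2:ℝ)^(t+5) * m * L ≤ T := Nat.le_ceil _
  have hbig : (1:ℝ) ≤ (2:ℝ)^(t+5) * m * L := by
    have h3 : (1:ℝ) ≤ 2^(t+5) := one_le_pow₀ (by norm_num)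
    have h4 : (1:ℝ) ≤ 2^(t+5) * m := one_le_mul_of_one_le_of_one_le h3 hm1'
    exact one_le_mul_of_one_le_of_one_le h4 hL1
  have hT2 : (T:ℝ) ≤ 2^(t+6) * m * L := by
    have h1 : (T:ℝ) < (2:ℝ)^(t+5) * m * L + 1 := Nat.ceil_lt_add_one (by positivity)
    have h2 : (2:ℝ)^(t+6) * m * L = 2 * ((2:ℝ)^(t+5) * m * L) := by
      rw [pow_succ (2:ℝ) (t+5)]; ring
    rw [h2]
    linarith
  refine ⟨m, p, T, by omega, by omega, hp, hmp, hpm, ?_, ?_, ?_, ?_⟩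
  · have : (1:ℝ) ≤ T := hbig.trans hT1
    exact_mod_cast this
  · have hr := ARR_ratio t n m p hn hpm
    have hΩ0 : (0:ℝ) ≤ (((n - t).choose (t+1) : ℕ) : ℝ) := Nat.cast_nonneg _
    have h1 : ((p^t * m.choose (2*t+1) : ℕ) : ℝ) * n ≤ (((n - t).choose (t+1) : ℕ) : ℝ) * n :=
      hr.trans (by gcongr)
    have h2 := le_of_mul_le_mul_right h1 hn0
    exact_mod_cast h2
  · exact ARR_B t n m p T L hL hL1 hn (by omega) hm1 hpm hT1
  · exact ARR_C t n m p T ht hn hm hL1 (by linarith) hpn hT2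

end H773W
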