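import Pool.Agent.H773R2.UR.Defs

/-! Task COS: common sunflowers in two hypergraphs (helper287). -/

set_option linter.unusedVariables false

namespace H773W

open Finset Pool.Agent.Results.MP_9dddc4_co.UkExponent

open Classical in
theorem COS_bound (h2 : S_SFB) (h3 : S_SFN) (n t s : ℕ) (H : ES n) (hr : IsRGraph (2 * t + 1) H)
    (hs : s ≤ n)
    (hD : t + 1 ≤ ((range (2 * t + 1)).filter (fun i => ¬ SF H i (s + 1))).card) :
    H.card ≤ (2 * t + 1).factorial * s ^ (t + 1) * n ^ t := by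
  set c : ℕ → ℕ := fun i => if ¬ SF H i (s + 1) then s else n with hc
  have h4 : ∀ i < 2 * t + 1, ¬ SF H i (c i + 1) := by
    intro i hi hSF
    by_cases hi' : ¬ SF H i (s + 1)
    · have e : c i = s := by rw [hc]; exact if_pos hi'
      rw [e] at hSF
      exact hi' hSF
    · have e : c i = n := by rw [hc]; exact if_neg hi'
      rw [e] at hSF
      have := (h3 n (2 * t + 1) i (n + 1) H hr hi).1 hSF
      omega
  have h5 := h2 n (2 * t + 1) H c hr h4
  refine h5.trans ?_
  rw [mul_assoc]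
  refine Nat.mul_le_mul_left _ ?_
  have h6 : ∏ i ∈ range (2 * t + 1), c i =
      s ^ ((range (2 * t + 1)).filter (fun i => ¬ SF H i (s + 1))).card *
      n ^ ((range (2 * t + 1)).filter (fun i => ¬ ¬ SF H i (s + 1))).card := by
    rw [hc, Finset.prod_ite, Finset.prod_const, Finset.prod_const]
  have h7 : ((range (2 * t + 1)).filter (fun i => ¬ SF H i (s + 1))).card +
      ((range (2 * t + 1)).filter (fun i => ¬ ¬ SF H i (s + 1))).card = 2 * t + 1 := by
    rw [Finset.card_filter_add_card_filter_not, Finset.card_range]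
  rw [h6]
  set a := ((range (2 * t + 1)).filter (fun i => ¬ SF H i (s + 1))).card
  set b := ((range (2 * t + 1)).filter (fun i => ¬ ¬ SF H i (s + 1))).card
  obtain ⟨a', ha'⟩ : ∃ a', a = t + 1 + a' := ⟨a - (t + 1), by omega⟩
  have hb : a' + b = t := by omega
  calc s ^ a * n ^ b = s ^ (t + 1) * (s ^ a' * n ^ b) := by rw [ha', pow_add]; ring
    _ ≤ s ^ (t + 1) * (n ^ a' * n ^ b) :=
        Nat.mul_le_mul_left _ (Nat.mul_le_mul_right _ (Nat.pow_le_pow_left hs a'))
    _ = s ^ (t + 1) * n ^ t := by rw [← pow_add, hb]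

open Classical in
theorem COS (h1 : S_SFC) (h2 : S_SFB) (h3 : S_SFN) : S_COS := by
  intro n t e H he hR hcard
  set r := 2 * t + 1 with hr
  have hne : ∀ j, (H j).Nonempty := fun j => by
    rw [← Finset.card_pos, hcard j]; exact he
  set Q : ℕ → Prop := fun s => ∃ i < r, SF (H 0) i s ∧ SF (H 1) i s with hQ
  have hQ1 : Q 1 := ⟨0, by omega, (h3 n r 0 1 (H 0) (hR 0) (by omega)).2.2 (hne 0),
    (h3 n r 0 1 (H 1) (hR 1) (by omega)).2.2 (hne 1)⟩
  have hQn : ∀ s, Q s → s ≤ n := by
    rintro s ⟨i, hi, hSF, -⟩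
    exact (h3 n r i s (H 0) (hR 0) hi).1 hSF
  have hn1 : 1 ≤ n := hQn 1 hQ1
  set s := Nat.findGreatest Q n with hs
  have hQs : Q s := Nat.findGreatest_spec hn1 hQ1
  have hs1 : 1 ≤ s := Nat.le_findGreatest hn1 hQ1
  have hsn : s ≤ n := hQn s hQs
  have hQs1 : ¬ Q (s + 1) := fun h =>
    Nat.findGreatest_is_greatest (Nat.lt_succ_self s) (hQn _ h) h
  refine ⟨s, hs1, ?_, ?_⟩
  · obtain ⟨i, hi, hi0, hi1⟩ := hQs
    refine h1 n r i s H hR fun j => ?_
    fin_cases j
    · exact hi0
    · exact hi1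
  · set D0 := (range r).filter (fun i => ¬ SF (H 0) i (s + 1)) with hD0
    set D1 := (range r).filter (fun i => ¬ SF (H 1) i (s + 1)) with hD1
    have hun : range r ⊆ D0 ∪ D1 := by
      intro i hi
      rw [Finset.mem_union, hD0, hD1, Finset.mem_filter, Finset.mem_filter]
      by_cases h : SF (H 0) i (s + 1)
      · right
        exact ⟨hi, fun h' => hQs1 ⟨i, Finset.mem_range.1 hi, h, h'⟩⟩
      · left
        exact ⟨hi, h⟩
    have hc := (Finset.card_le_card hun).trans (Finset.card_union_le D0 D1)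
    rw [Finset.card_range] at hc
    rcases le_or_gt (t + 1) D0.card with h | h
    · rw [← hcard 0]
      exact COS_bound h2 h3 n t s (H 0) (hR 0) hsn h
    · have h' : t + 1 ≤ D1.card := by omega
      rw [← hcard 1]
      exact COS_bound h2 h3 n t s (H 1) (hR 1) hsn h'

end H773W
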