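import Pool.Agent.H773R2.UR.Defs

/-! `U_2(n,r)` for even `r`. -/

set_option linter.unusedVariables false

namespace H773W

open Finset Pool.Agent.Results.MP_9dddc4_co.UkExponent

/-- EVU: the trivial upper bound -/
def S_EVU : Prop := ∀ r : ℕ, 1 ≤ r → ∃ C : ℝ, 0 < C ∧ ∀ n : ℕ, 1 ≤ n →
  (U 2 n r : ℝ) ≤ C * (n : ℝ) ^ ((r : ℝ) / 2)

/-- EVL: the lower bound for even `r = 2t` -/
def S_EVL : Prop := ∀ t : ℕ, 1 ≤ t → ∃ c : ℝ, 0 < c ∧ ∀ᶠ n : ℕ in Filter.atTop,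
  c * (n : ℝ) ^ t ≤ (U 2 n (2 * t) : ℝ)

end H773W
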