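import Pool.Agent.H773R2.UR.Defs2

namespace H773W

open Finset Pool.Agent.Results.MP_9dddc4_co.UkExponent

/-- the star with kernel `X` has many edges -/
theorem EVL_star (n t p : ℕ) (ht : 1 ≤ t) (hn : 4 * t ≤ n) (hp : 2 * t * p ≤ n) :
    ∃ (X : Finset (Fin n)) (G : ES n), X.card = t ∧ G.card = p ^ t ∧
      ∀ f ∈ G, X ⊆ f ∧ f.card = 2 * t := by
  classical
  obtain ⟨X, -, hX⟩ := Finset.exists_subset_card_eq (s := (Finset.univ : Finset (Fin n))) (n := t)
    (by rw [Finset.card_univ, Fintype.card_fin]; omega)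
  set Y : Finset (Fin n) := Finset.univ \ X with hY
  have hYc : Y.card = n - t := by
    rw [hY, Finset.card_sdiff_of_subset (Finset.subset_univ _), Finset.card_univ, Fintype.card_fin, hX]
  set St : ES n := (Finset.powersetCard t Y).image (fun q => X ∪ q) with hSt
  have hdisj : ∀ q ∈ Finset.powersetCard t Y, Disjoint X q := by
    intro q hq
    have h1 := (Finset.mem_powersetCard.mp hq).1
    exact (Finset.disjoint_sdiff (s := X) (t := Finset.univ)).mono_right h1
  have hStc : St.card = (n - t).choose t := by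
    rw [hSt, Finset.card_image_of_injOn, Finset.card_powersetCard, hYc]
    intro q hq q' hq' h
    have h1 := hdisj q hq
    have h2 := hdisj q' hq'
    have h3 : X ∪ q = X ∪ q' := h
    have h4 : q = (X ∪ q) \ X := by rw [Finset.union_sdiff_cancel_left h1]
    have h5 : q' = (X ∪ q') \ X := by rw [Finset.union_sdiff_cancel_left h2]
    rw [h4, h5, h3]
  have hle : p ^ t ≤ St.card := by
    rw [hStc]
    have h1 : ((n - t + 1 - t : ℕ)) ^ t ≤ t.factorial * (n - t).choose t := by
      have := Nat.pow_le_choose (α := ℚ) t (n - t)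
      have h2 : (((n - t + 1 - t : ℕ) ^ t : ℕ) : ℚ) / t.factorial ≤ ((n - t).choose t : ℕ) := by
        push_cast
        exact this
      rw [div_le_iff₀ (by positivity)] at h2
      rw [mul_comm]
      exact_mod_cast h2
    have h2 : p * t ≤ n - t + 1 - t := by
      have : 2 * (p * t) ≤ n := by
        calc 2 * (p * t) = 2 * t * p := by ring
          _ ≤ n := hp
      omega
    have h3 : (p * t) ^ t ≤ (n - t + 1 - t) ^ t := Nat.pow_le_pow_left h2 t
    have h4 : t.factorial ≤ t ^ t := Nat.factorial_le_pow t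
    have h5 : t ^ t * p ^ t ≤ t ^ t * (n - t).choose t := by
      calc t ^ t * p ^ t = (p * t) ^ t := by rw [mul_pow, mul_comm]
        _ ≤ (n - t + 1 - t) ^ t := h3
        _ ≤ t.factorial * (n - t).choose t := h1
        _ ≤ t ^ t * (n - t).choose t := Nat.mul_le_mul_right _ h4
    exact Nat.le_of_mul_le_mul_left h5 (by positivity)
  obtain ⟨G, hG, hGc⟩ := Finset.exists_subset_card_eq hle
  refine ⟨X, G, hX, hGc, ?_⟩
  intro f hf
  obtain ⟨q, hq, rfl⟩ := Finset.mem_image.mp (hG hf)
  refine ⟨Finset.subset_union_left, ?_⟩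
  show (X ∪ q).card = 2 * t
  rw [Finset.card_union_of_disjoint (hdisj q hq), hX, (Finset.mem_powersetCard.mp hq).2]
  ring

theorem EVL_lower (n t p : ℕ) (h : S_PK) (ht : 1 ≤ t) (hpp : p.Prime) (hpt : 2 * t ≤ p)
    (hn : 4 * t ≤ n) (hp : 2 * t * p ≤ n) : p ^ t ≤ U 2 n (2 * t) := by
  classical
  obtain ⟨S, hSc, hS1, hS2⟩ := h n t (2 * t) p hpp ht (by omega) hpt hp
  obtain ⟨X, G, hX, hGc, hG⟩ := EVL_star n t p ht hn hp
  have key := le_U_mul (k := 2) (n := n) (r := 2 * t) ![S, G] (by
    intro i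
    fin_cases i
    · exact hS1
    · exact fun e he => (hG e he).2) (p ^ t) 1 (by norm_num) (by
    intro i
    fin_cases i
    · exact hSc
    · exact hGc) (by
    intro s hs
    obtain ⟨F, σ, hF, hσ⟩ := hs
    by_contra hcon
    push Not at hcon
    rw [← hF] at hcon
    obtain ⟨f, hf, f', hf', hne⟩ := Finset.one_lt_card.mp hcon
    have himg : ∀ (i : Fin 2) (e : Finset (Fin n)), e ∈ F → e.image (σ i) ∈ img (σ i) F :=
      fun i e he => Finset.mem_image_of_mem _ he
    have hcard : ∀ i : Fin 2, (f.image (σ i) ∩ f'.image (σ i)).card = (f ∩ f').card := by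
      intro i
      rw [← Finset.image_inter _ _ (σ i).injective,
        Finset.card_image_of_injective _ (σ i).injective]
    have h0 : (f.image (σ 0) ∩ f'.image (σ 0)).card < t := by
      refine hS2 _ (hσ 0 (himg 0 f hf)) _ (hσ 0 (himg 0 f' hf')) ?_
      intro heq
      exact hne (Finset.image_injective (σ 0).injective heq)
    have h1 : t ≤ (f.image (σ 1) ∩ f'.image (σ 1)).card := by
      rw [← hX]
      apply Finset.card_le_card
      exact Finset.subset_inter (hG _ (hσ 1 (himg 1 f hf))).1 (hG _ (hσ 1 (himg 1 f' hf'))).1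
    rw [hcard] at h0 h1
    omega)
  simpa using key

theorem EVL (h : S_PK) : S_EVL := by
  intro t ht
  refine ⟨(1 / (4 * (t : ℝ))) ^ t, by positivity, ?_⟩
  filter_upwards [Filter.eventually_ge_atTop (4 * t * (2 * t))] with n hn
  set N := n / (4 * t) with hN
  have hNt : 2 * t ≤ N := by
    rw [hN, Nat.le_div_iff_mul_le (by omega)]
    calc 2 * t * (4 * t) = 4 * t * (2 * t) := by ring
      _ ≤ n := hn
  obtain ⟨p, hpp, hp1, hp2⟩ := Nat.exists_prime_lt_and_le_two_mul N (by omega)
  have h4 : 4 * t * N ≤ n := Nat.mul_div_le n (4 * t)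
  have hp3 : 2 * t * p ≤ n := by
    calc 2 * t * p ≤ 2 * t * (2 * N) := Nat.mul_le_mul_left _ hp2
      _ = 4 * t * N := by ring
      _ ≤ n := h4
  have hn4 : 4 * t ≤ n := by nlinarith
  have hmain := EVL_lower n t p h ht hpp (by omega) hn4 hp3
  have hlow : (n : ℝ) / (4 * t) ≤ p := by
    have h5 : n < 4 * t * (N + 1) := by
      rw [hN]
      exact Nat.lt_mul_div_succ n (by omega)
    have h6 : (n : ℝ) < 4 * t * ((N : ℝ) + 1) := by exact_mod_cast h5
    have h7 : (N : ℝ) + 1 ≤ p := by exact_mod_cast hp1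
    have ht0 : (0 : ℝ) < 4 * t := by
      have : (0:ℝ) < t := by exact_mod_cast (by omega : 0 < t)
      linarith
    rw [div_le_iff₀ ht0]
    calc (n : ℝ) ≤ 4 * t * ((N : ℝ) + 1) := h6.le
      _ ≤ 4 * t * p := mul_le_mul_of_nonneg_left h7 ht0.le
      _ = p * (4 * t) := by ring
  calc (1 / (4 * (t : ℝ))) ^ t * (n : ℝ) ^ t = ((n : ℝ) / (4 * t)) ^ t := by
        rw [← mul_pow]
        congr 1
        ring
    _ ≤ (p : ℝ) ^ t := pow_le_pow_left₀ (by positivity) hlow t
    _ ≤ (U 2 n (2 * t) : ℝ) := by exact_mod_cast hmain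

end H773W
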