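import Pool.Agent.H773R2.UR.Defs2

/-! The trivial upper bound for `U_2(n,r)`. -/

namespace H773W

open Finset Pool.Agent.Results.MP_9dddc4_co.UkExponent

/-- the potential -/
noncomputable def EVU_Phi (E : ℝ) (e : ℕ) : ℝ :=
  if E < (e : ℝ) then E + 1 + E ^ 2 * (1 / E - 1 / (e : ℝ)) else (e : ℝ)

theorem EVU_le {E : ℝ} (hE : 1 ≤ E) (e : ℕ) : EVU_Phi E e ≤ 3 * E := by
  unfold EVU_Phi
  split_ifs with h
  · have h1 : 0 ≤ 1 / (e : ℝ) := by positivity
    have h2 : E ^ 2 * (1 / E - 1 / (e : ℝ)) ≤ E := by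
      have h3 : E ^ 2 * (1 / E) = E := by field_simp
      nlinarith [mul_nonneg (sq_nonneg E) h1]
    linarith
  · push Not at h
    linarith

theorem EVU_main {n r : ℕ} (E : ℝ) (hE : 1 ≤ E) (hE2 : E ^ 2 = (n : ℝ) ^ r) :
    ∀ e, 1 ≤ e → ∀ H : Fin 2 → Finset (Finset (Fin n)), (∀ i, IsRGraph r (H i)) →
      (∀ i, (H i).card = e) → ∃ s : ℕ, 1 ≤ s ∧ Common H s ∧ EVU_Phi E (e - s) + 1 ≤ EVU_Phi E e := by
  intro e he H hH hc
  by_cases h : E < (e : ℝ)
  · obtain ⟨s, hs, hes⟩ := common_overlap (k := 2) (by norm_num) H hH hc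
    have hs1 : 1 ≤ s := by
      rcases Nat.eq_zero_or_pos s with h0 | h0
      · subst h0
        have : 1 ≤ e ^ 2 := Nat.one_le_pow _ _ he
        omega
      · exact h0
    have hse : s ≤ e := by
      have := hs.le_card 0
      rwa [hc] at this
    refine ⟨s, hs1, hs, ?_⟩
    have hch : (n.choose r : ℝ) ≤ E ^ 2 := by
      rw [hE2]
      exact_mod_cast Nat.choose_le_pow n r
    have hes' : (e : ℝ) ^ 2 ≤ s * E ^ 2 := by
      have h1 : (e : ℝ) ^ 2 ≤ s * (n.choose r : ℝ) ^ (2 - 1) := by exact_mod_cast hes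
      have h2 : (s : ℝ) * (n.choose r : ℝ) ^ (2 - 1) ≤ s * E ^ 2 := by
        simp only [Nat.add_one_sub_one, pow_one, show 2 - 1 = 1 from rfl]
        gcongr
      linarith
    have he0 : (0 : ℝ) < e := by exact_mod_cast he
    have hcast : ((e - s : ℕ) : ℝ) = (e : ℝ) - s := Nat.cast_sub hse
    by_cases h' : E < ((e - s : ℕ) : ℝ)
    · unfold EVU_Phi
      rw [if_pos h, if_pos h']
      have hes0 : (0 : ℝ) < ((e - s : ℕ) : ℝ) := by linarith
      have key : 1 ≤ E ^ 2 * (1 / ((e - s : ℕ) : ℝ) - 1 / (e : ℝ)) := by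
        have e1 : E ^ 2 * (1 / ((e - s : ℕ) : ℝ) - 1 / (e : ℝ)) =
            (s * E ^ 2) / (((e - s : ℕ) : ℝ) * e) := by
          have : (s : ℝ) = e - ((e - s : ℕ) : ℝ) := by rw [hcast]; ring
          rw [this]
          field_simp
        rw [e1, le_div_iff₀ (by positivity), one_mul]
        have h3 : ((e - s : ℕ) : ℝ) * e ≤ (e : ℝ) ^ 2 := by
          have : ((e - s : ℕ) : ℝ) ≤ e := by
            rw [hcast]
            have : (0 : ℝ) ≤ s := by positivity
            linarith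
          nlinarith
        linarith
      have e2 : E + 1 + E ^ 2 * (1 / E - 1 / (e : ℝ)) =
          E + 1 + E ^ 2 * (1 / E - 1 / ((e - s : ℕ) : ℝ)) +
            E ^ 2 * (1 / ((e - s : ℕ) : ℝ) - 1 / (e : ℝ)) := by ring
      rw [e2]
      linarith
    · unfold EVU_Phi
      rw [if_pos h, if_neg h']
      push Not at h'
      have h4 : 1 / (e : ℝ) ≤ 1 / E := one_div_le_one_div_of_le (by linarith) h.le
      have h5 : 0 ≤ E ^ 2 * (1 / E - 1 / (e : ℝ)) := mul_nonneg (sq_nonneg _) (by linarith)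
      linarith
  · refine ⟨1, le_rfl, common_one (by norm_num) H hH e he hc, ?_⟩
    push Not at h
    have hcast : ((e - 1 : ℕ) : ℝ) = (e : ℝ) - 1 := by
      rw [Nat.cast_sub he, Nat.cast_one]
    unfold EVU_Phi
    rw [if_neg (not_lt.2 h), if_neg (not_lt.2 (by rw [hcast]; linarith)), hcast]
    linarith

theorem EVU : S_EVU := by
  intro r hr
  refine ⟨3, by norm_num, fun n hn => ?_⟩
  have hn1 : (1 : ℝ) ≤ n := by exact_mod_cast hn
  have hn0 : (0 : ℝ) ≤ n := by linarith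
  set E : ℝ := (n : ℝ) ^ ((r : ℝ) / 2) with hEdef
  have hE : 1 ≤ E := Real.one_le_rpow hn1 (by positivity)
  have hE2 : E ^ 2 = (n : ℝ) ^ r := by
    rw [hEdef, ← Real.rpow_natCast, ← Real.rpow_mul hn0, ← Real.rpow_natCast]
    congr 1
    push_cast
    ring
  refine U_le (by norm_num) (3 * E) fun e H hH hc => ?_
  obtain ⟨t, ht1, ht2⟩ := greedy (r := r) (by norm_num) (EVU_Phi E) (EVU_main E hE hE2) e H hH hc
  refine ⟨t, ht1, ht2.trans ?_⟩
  have h0 : EVU_Phi E 0 = 0 := by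
    unfold EVU_Phi
    rw [if_neg (by push_cast; linarith)]
    simp
  rw [h0, sub_zero]
  exact EVU_le hE e

end H773W
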