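import Pool.Agent.H773R2.UR.Defs

namespace H773W

open Finset Pool.Agent.Results.MP_9dddc4_co.UkExponent

theorem LB (h1 : S_RG) (h2 : S_PK) (h3 : S_LBR) (h4 : S_ARR) : S_LB := by
  intro t ht
  obtain ⟨c, hc, hev⟩ := h4 t ht
  refine ⟨c, hc, ?_⟩
  filter_upwards [hev] with n hn
  obtain ⟨m, p, T, htm, htn, hp, hmp, hmpn, hT, hE, hlt, hfin⟩ := hn
  obtain ⟨X, -, hX⟩ := Finset.exists_subset_card_eq (s := (univ : Finset (Fin n))) (n := t)
    (by simpa using htn)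
  obtain ⟨G, hG1, hG2, hG3⟩ := h1 n m T (p ^ t * m.choose (2 * t + 1)) t X (ht.trans htn) hX hE hlt
  obtain ⟨S, hS1, hS2, hS3⟩ := h2 n t m p hp ht htm hmp hmpn
  have h5 := h3 n t m T X S G ht htm hX hS2 hS3 hG1 (by rw [hG2, hS1]) hG3
  rw [hS1] at h5
  have h6 : ((p ^ t * m.choose (2 * t + 1) : ℕ) : ℝ) ≤ (U 2 n (2 * t + 1) : ℝ) * T := by
    exact_mod_cast h5
  have hT' : (0 : ℝ) < T := by exact_mod_cast hT
  exact le_of_mul_le_mul_right (hfin.trans h6) hT'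

end H773W
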