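import Pool.Agent.H773R2.UR.Defs

/-! Task LBR: the combinatorial lower bound. -/

set_option linter.unusedVariables false

namespace H773W

open Finset Pool.Agent.Results.MP_9dddc4_co.UkExponent

theorem LBR_sdiff {n : ℕ} {X p : Finset (Fin n)} (h : Disjoint p X) : (X ∪ p) \ X = p := by
  ext x
  simp only [mem_sdiff, mem_union]
  constructor
  · rintro ⟨h1 | h1, h2⟩
    · exact absurd h1 h2
    · exact h1
  · intro hx
    exact ⟨Or.inr hx, Finset.disjoint_left.1 h hx⟩

theorem LBR : S_LBR := by
  classical
  intro n t m T X S G ht htm hX hS hSS hG hGc hW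
  set H0 : ES n := S.biUnion (powersetCard (2 * t + 1)) with hH0
  set H1 : ES n := G.image (fun p => X ∪ p) with hH1
  let H : Fin 2 → ES n := fun i => if i = 0 then H0 else H1
  have hHe0 : H 0 = H0 := rfl
  have hHe1 : H 1 = H1 := rfl
  have hm0 : ∀ f, f ∈ H0 ↔ ∃ s ∈ S, f ⊆ s ∧ f.card = 2 * t + 1 := by
    intro f
    rw [hH0, mem_biUnion]
    simp only [mem_powersetCard]
  have hm1 : ∀ f, f ∈ H1 ↔ ∃ p ∈ G, X ∪ p = f := by
    intro f
    rw [hH1, mem_image]
  have hT1 : 1 ≤ T := by
    have := hW ∅ (by simp)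
    omega
  refine le_U_mul (k := 2) (n := n) (r := 2 * t + 1) H ?_ (S.card * m.choose (2 * t + 1)) T
    (by norm_num) ?_ ?_
  · intro i f hf
    fin_cases i
    · obtain ⟨s, _, _, h⟩ := (hm0 f).1 hf
      exact h
    · obtain ⟨p, hp, rfl⟩ := (hm1 f).1 hf
      obtain ⟨h1, h2⟩ := hG p hp
      rw [card_union_of_disjoint h2.symm, hX, h1]
      ring
  · intro i
    fin_cases i
    · show H0.card = _
      rw [hH0, card_biUnion]
      · rw [Finset.sum_congr rfl (fun s hs => by rw [card_powersetCard, hS s hs])]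
        rw [Finset.sum_const, smul_eq_mul]
      · intro s hs s' hs' hne
        rw [Function.onFun, Finset.disjoint_left]
        intro f hf hf'
        rw [mem_powersetCard] at hf hf'
        have h1 := card_le_card (subset_inter hf.1 hf'.1)
        have h2 := hSS s hs s' hs' hne
        omega
    · show H1.card = _
      rw [hH1, card_image_of_injOn, hGc]
      intro p hp p' hp' h
      have h' : X ∪ p = X ∪ p' := h
      rw [← LBR_sdiff (hG p hp).2, ← LBR_sdiff (hG p' hp').2, h']
  · intro k0 hcom
    obtain ⟨F, σ, hF, hσ⟩ := hcom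
    by_contra hlt
    push Not at hlt
    have hFne : F.Nonempty := by
      rw [← card_pos, hF]
      omega
    obtain ⟨f0, hf0⟩ := hFne
    have e0 : ∀ f ∈ F, ∃ s ∈ S, f.image (σ 0) ⊆ s := by
      intro f hf
      have h1 : f.image (σ 0) ∈ H0 := hσ 0 (mem_image_of_mem _ hf)
      obtain ⟨s, hs, h2, _⟩ := (hm0 _).1 h1
      exact ⟨s, hs, h2⟩
    have e1 : ∀ f ∈ F, ∃ p ∈ G, X ∪ p = f.image (σ 1) := by
      intro f hf
      have h1 : f.image (σ 1) ∈ H1 := hσ 1 (mem_image_of_mem _ hf)
      exact (hm1 _).1 h1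
    set Y : Finset (Fin n) := X.image (fun x => σ 0 ((σ 1).symm x)) with hY
    have hYc : Y.card = t := by
      rw [hY, card_image_of_injective, hX]
      intro x y h
      exact (σ 1).symm.injective ((σ 0).injective h)
    have hYf : ∀ f ∈ F, Y ⊆ f.image (σ 0) := by
      intro f hf y hy
      rw [hY, mem_image] at hy
      obtain ⟨x, hx, rfl⟩ := hy
      obtain ⟨p, hp, he⟩ := e1 f hf
      have hx' : x ∈ f.image (σ 1) := by
        rw [← he]
        exact mem_union_left _ hx
      obtain ⟨z, hz, rfl⟩ := mem_image.1 hx'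
      refine mem_image.2 ⟨z, hz, ?_⟩
      rw [Equiv.symm_apply_apply]
    obtain ⟨s0, hs0, hfs0⟩ := e0 f0 hf0
    have hall : ∀ f ∈ F, f.image (σ 0) ⊆ s0 := by
      intro f hf
      obtain ⟨s, hs, h1⟩ := e0 f hf
      have : s = s0 := by
        by_contra hne
        have h2 := hSS s hs s0 hs0 hne
        have h3 := card_le_card (subset_inter ((hYf f hf).trans h1) ((hYf f0 hf0).trans hfs0))
        omega
      rwa [this] at h1
    set W : Finset (Fin n) := s0.image (fun x => σ 1 ((σ 0).symm x)) with hWd
    have hWc : W.card ≤ m := by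
      rw [← hS s0 hs0]
      exact card_image_le
    have hfW : ∀ f ∈ F, f.image (σ 1) ⊆ W := by
      intro f hf y hy
      obtain ⟨z, hz, rfl⟩ := mem_image.1 hy
      have h1 := hall f hf (mem_image_of_mem (σ 0) hz)
      rw [hWd, mem_image]
      refine ⟨σ 0 z, h1, ?_⟩
      rw [Equiv.symm_apply_apply]
    have hle : F.card ≤ (G.filter (fun p => p ⊆ W)).card := by
      refine card_le_card_of_injOn (fun f => (f.image (σ 1)) \ X) ?_ ?_
      · intro f hf
        obtain ⟨p, hp, he⟩ := e1 f hf
        have h1 : (f.image (σ 1)) \ X = p := by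
          rw [← he]
          exact LBR_sdiff (hG p hp).2
        show (f.image (σ 1)) \ X ∈ _
        rw [h1]
        have h2 : p ∈ G.filter (fun p => p ⊆ W) := by
          rw [mem_filter]
          exact ⟨hp, subset_union_right.trans (he.le.trans (hfW f hf))⟩
        exact h2
      · intro f hf f' hf' h
        obtain ⟨p, hp, he⟩ := e1 f hf
        obtain ⟨p', hp', he'⟩ := e1 f' hf'
        have h1 : (f.image (σ 1)) \ X = p := by
          rw [← he]
          exact LBR_sdiff (hG p hp).2
        have h2 : (f'.image (σ 1)) \ X = p' := by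
          rw [← he']
          exact LBR_sdiff (hG p' hp').2
        have h3 : (f.image (σ 1)) \ X = (f'.image (σ 1)) \ X := h
        rw [h1, h2] at h3
        have h4 : f.image (σ 1) = f'.image (σ 1) := by rw [← he, ← he', h3]
        exact Finset.image_injective (σ 1).injective h4
    have := hW W hWc
    omega

end H773W
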