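import Pool.Agent.H773R2.UR.Defs

/-! Task PK: packing of `m`-sets, any two of which share fewer than `t` points. -/

set_option linter.unusedVariables false

namespace H773W

open Finset Pool.Agent.Results.MP_9dddc4_co.UkExponent

/-- the point with coordinates `(i, a)` -/
def PK_enc {n m p : ℕ} [NeZero p] (h : m * p ≤ n) (i : Fin m) (a : ZMod p) : Fin n :=
  ⟨(i : ℕ) * p + a.val, by
    have h1 : a.val < p := ZMod.val_lt a
    have h2 : ((i : ℕ) + 1) * p ≤ m * p := Nat.mul_le_mul_right _ i.2
    have h3 : ((i : ℕ) + 1) * p = (i : ℕ) * p + p := by ring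
    omega⟩

theorem PK_enc_inj {n m p : ℕ} [NeZero p] (h : m * p ≤ n) {i i' : Fin m} {a a' : ZMod p}
    (he : PK_enc h i a = PK_enc h i' a') : i = i' ∧ a = a' := by
  have h1 : (i : ℕ) * p + a.val = (i' : ℕ) * p + a'.val := congrArg Fin.val he
  have ha : a.val < p := ZMod.val_lt a
  have ha' : a'.val < p := ZMod.val_lt a'
  have hp : 0 < p := Nat.pos_of_ne_zero (NeZero.ne p)
  have h2 : ((i : ℕ) * p + a.val) / p = i := by
    rw [Nat.mul_comm, Nat.mul_add_div hp, Nat.div_eq_of_lt ha, Nat.add_zero]
  have h3 : ((i' : ℕ) * p + a'.val) / p = i' := by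
    rw [Nat.mul_comm, Nat.mul_add_div hp, Nat.div_eq_of_lt ha', Nat.add_zero]
  have h4 : (i : ℕ) = i' := by rw [← h2, h1, h3]
  refine ⟨Fin.ext h4, ?_⟩
  rw [h4] at h1
  exact ZMod.val_injective p (by omega)

/-- the value of the polynomial with coefficients `c` -/
def PK_val {t p : ℕ} (c : Fin t → ZMod p) (i : ℕ) : ZMod p := ∑ j : Fin t, c j * (i : ZMod p) ^ (j : ℕ)

/-- the set of the polynomial with coefficients `c` -/
def PK_set {n m p t : ℕ} [NeZero p] (h : m * p ≤ n) (c : Fin t → ZMod p) : Finset (Fin n) :=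
  univ.image (fun i : Fin m => PK_enc h i (PK_val c i))

theorem PK_set_card {n m p t : ℕ} [NeZero p] (h : m * p ≤ n) (c : Fin t → ZMod p) :
    (PK_set (m := m) h c).card = m := by
  unfold PK_set
  rw [card_image_of_injective _ (fun i i' he => (PK_enc_inj h he).1), card_univ, Fintype.card_fin]

theorem PK_inter {n m p t : ℕ} [Fact p.Prime] (h : m * p ≤ n) (ht : 1 ≤ t) (hmp : m ≤ p)
    (c c' : Fin t → ZMod p) (hc : c ≠ c') :
    (PK_set (m := m) h c ∩ PK_set (m := m) h c').card < t := by
  classical
  open Polynomial in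
  let P : (ZMod p)[X] := ∑ j : Fin t, Polynomial.C (c j - c' j) * Polynomial.X ^ (j : ℕ)
  have hcoef : ∀ j : Fin t, P.coeff (j : ℕ) = c j - c' j := by
    intro j
    simp only [P, Polynomial.finsetSum_coeff, Polynomial.coeff_C_mul, Polynomial.coeff_X_pow]
    rw [Finset.sum_eq_single j]
    · simp
    · intro b _ hb
      have : (j : ℕ) ≠ (b : ℕ) := fun h => hb (Fin.ext h.symm)
      simp [this]
    · simp
  have hP0 : P ≠ 0 := by
    intro h0
    apply hc
    funext j
    have := hcoef j
    rw [h0, Polynomial.coeff_zero] at this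
    exact (sub_eq_zero.1 this.symm)
  have hdeg : P.natDegree < t :=
    (Polynomial.natDegree_lt_iff_degree_lt hP0).2 (Polynomial.degree_sum_fin_lt _)
  have heval : ∀ i : ℕ, P.eval (i : ZMod p) = PK_val c i - PK_val c' i := by
    intro i
    simp only [P, Polynomial.eval_finsetSum, Polynomial.eval_mul, Polynomial.eval_C,
      Polynomial.eval_pow, Polynomial.eval_X, PK_val]
    rw [← Finset.sum_sub_distrib]
    exact Finset.sum_congr rfl fun j _ => by ring
  -- the common points
  set I : Finset (Fin m) := univ.filter (fun i : Fin m => PK_val c i = PK_val c' i) with hI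
  have h1 : PK_set (m := m) h c ∩ PK_set (m := m) h c' ⊆
      I.image (fun i : Fin m => PK_enc h i (PK_val c i)) := by
    intro v hv
    rw [mem_inter] at hv
    unfold PK_set at hv
    obtain ⟨i, -, hi⟩ := mem_image.1 hv.1
    obtain ⟨i', -, hi'⟩ := mem_image.1 hv.2
    obtain ⟨e1, e2⟩ := PK_enc_inj h (hi.trans hi'.symm)
    subst e1
    exact mem_image.2 ⟨i, by simp [hI, e2], hi⟩
  have h2 : (I.image (fun i : Fin m => ((i : ℕ) : ZMod p))).card = I.card := by
    apply card_image_of_injective
    intro i i' hii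
    apply Fin.ext
    have hi : (i : ℕ) < p := lt_of_lt_of_le i.2 hmp
    have hi' : (i' : ℕ) < p := lt_of_lt_of_le i'.2 hmp
    have h3 := congrArg ZMod.val hii
    simp only at h3
    rwa [ZMod.val_natCast_of_lt hi, ZMod.val_natCast_of_lt hi'] at h3
  have h3 : (I.image (fun i : Fin m => ((i : ℕ) : ZMod p))).card ≤ P.natDegree := by
    apply Polynomial.card_le_degree_of_subset_roots
    intro z hz
    rw [Finset.mem_val] at hz
    obtain ⟨i, hi, rfl⟩ := mem_image.1 hz
    rw [Polynomial.mem_roots hP0, Polynomial.IsRoot.def, heval]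
    rw [hI, mem_filter] at hi
    rw [hi.2, sub_self]
  calc (PK_set (m := m) h c ∩ PK_set (m := m) h c').card
      ≤ (I.image (fun i : Fin m => PK_enc h i (PK_val c i))).card := card_le_card h1
    _ ≤ I.card := card_image_le
    _ ≤ P.natDegree := by rw [← h2]; exact h3
    _ < t := hdeg

theorem PK : S_PK := by
  intro n t m p hp ht htm hmp hn
  have : Fact p.Prime := ⟨hp⟩
  have hinj : Function.Injective (fun c : Fin t → ZMod p => PK_set (m := m) hn c) := by
    intro c c' hcc
    by_contra hne
    have h1 := PK_inter (m := m) hn ht hmp c c' hne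
    simp only at hcc
    rw [← hcc, inter_self, PK_set_card] at h1
    omega
  refine ⟨univ.image (fun c : Fin t → ZMod p => PK_set (m := m) hn c), ?_, ?_, ?_⟩
  · rw [card_image_of_injective _ hinj, card_univ, Fintype.card_fun, ZMod.card, Fintype.card_fin]
  · intro s hs
    obtain ⟨c, -, rfl⟩ := mem_image.1 hs
    exact PK_set_card hn c
  · intro s hs s' hs' hne
    obtain ⟨c, -, rfl⟩ := mem_image.1 hs
    obtain ⟨c', -, rfl⟩ := mem_image.1 hs'
    exact PK_inter hn ht hmp c c' (fun h => hne (by rw [h]))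

end H773W
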