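import Pool.Agent.H773R2.UR.Defs

set_option linter.unusedVariables false

namespace H773W

open Finset

/-- Bernoulli: `m^... * a * e^(a-1) <= e^a - (e-m)^a` -/
theorem POT_bern {a e m : ℝ} (ha0 : 0 ≤ a) (ha1 : a ≤ 1) (he : 0 < e) (hm : 0 ≤ m)
    (hme : m ≤ e) : a * m * e ^ (a - 1) ≤ e ^ a - (e - m) ^ a := by
  have h0 : 0 ≤ (e - m) / e := div_nonneg (by linarith) he.le
  have h1 : ((e - m) / e) ^ a ≤ 1 + a * ((e - m) / e - 1) := by
    have := _root_.rpow_one_add_le_one_add_mul_self (s := (e - m) / e - 1) (p := a)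
      (by linarith) ha0 ha1
    simpa using this
  have h2 : (e - m) ^ a = e ^ a * ((e - m) / e) ^ a := by
    rw [Real.div_rpow (by linarith) he.le]
    have : e ^ a ≠ 0 := (Real.rpow_pos_of_pos he a).ne'
    field_simp
  have h3 : e ^ a * ((e - m) / e) ^ a ≤ e ^ a * (1 + a * ((e - m) / e - 1)) :=
    mul_le_mul_of_nonneg_left h1 (Real.rpow_nonneg he.le a)
  have h4 : e ^ (a - 1) = e ^ a / e := by
    rw [Real.rpow_sub_one he.ne']
  have h5 : a * m * e ^ (a - 1) = e ^ a * (-(a * ((e - m) / e - 1))) := by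
    rw [h4]; field_simp; ring
  rw [h2, h5]
  nlinarith [h3]

theorem POT : S_POT := by
  intro t ht
  have ht' : (1 : ℝ) ≤ (t : ℝ) := by exact_mod_cast ht
  have ht0 : (0 : ℝ) < (t : ℝ) := by linarith
  set R : ℝ := ((2 * t + 1).factorial : ℝ) with hRdef
  have hR : 0 < R := by rw [hRdef]; exact_mod_cast Nat.factorial_pos _
  set a : ℝ := (t : ℝ) / (t + 1) with hadef
  have ha0 : 0 < a := by rw [hadef]; positivity
  have ha1 : a ≤ 1 := by rw [hadef, div_le_one (by linarith)]; linarith
  set b : ℝ := 1 / ((t : ℝ) + 1) with hbdef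
  have hb0 : 0 < b := by rw [hbdef]; positivity
  have hab : a - 1 = -b := by rw [hadef, hbdef]; field_simp; ring
  set C1 : ℝ := (((t : ℝ) + 1) / t) * R ^ b with hC1
  have hC1pos : 0 < C1 := by rw [hC1]; positivity
  have hC1a : C1 * a = R ^ b := by
    rw [hC1, hadef]; field_simp
  refine ⟨C1 + 2, by linarith, ?_⟩
  intro n hn
  have hN : (1 : ℝ) ≤ (n : ℝ) := by exact_mod_cast hn
  have hN0 : (0 : ℝ) < (n : ℝ) := by linarith
  set N : ℝ := (n : ℝ) with hNdef
  set E : ℝ := E0 n t with hEdef
  have hEeq : E = N ^ ((2 * (t : ℝ) ^ 2 + 2 * t + 1) / (2 * t + 1)) := by rw [hEdef]; rfl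
  have hE0 : 0 < E := by rw [hEeq]; positivity
  -- exponents
  have hx1 : N ^ a * E ^ a = N ^ ex t := by
    rw [hEeq, ← Real.rpow_mul hN0.le, ← Real.rpow_add hN0]
    congr 1
    rw [hadef]; unfold ex; field_simp; ring
  have hx2 : N ^ (2 * t + 1) / E = N ^ ex t := by
    rw [hEeq, ← Real.rpow_natCast, ← Real.rpow_sub hN0]
    congr 1
    unfold ex; push_cast; field_simp; ring
  have hexpos : 0 ≤ ex t := by unfold ex; positivity
  have hx3 : 1 ≤ N ^ ex t := Real.one_le_rpow hN hexpos
  refine ⟨fun e => C1 * N ^ a * (min (e : ℝ) E) ^ a +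
    (if E < (e : ℝ) then 1 + N ^ (2 * t + 1) * (1 / E - 1 / e) else 0), ?_, ?_, ?_⟩
  · have h1 : ¬ (E < ((0 : ℕ) : ℝ)) := by push_cast; linarith
    simp only [h1, if_false, add_zero]
    have : (0 : ℝ) ≤ min ((0 : ℕ) : ℝ) E := le_min (by simp) hE0.le
    positivity
  · intro e
    have h1 : C1 * N ^ a * (min (e : ℝ) E) ^ a ≤ C1 * N ^ ex t := by
      rw [← hx1, mul_assoc]
      apply mul_le_mul_of_nonneg_left _ hC1pos.le
      apply mul_le_mul_of_nonneg_left _ (by positivity)
      exact Real.rpow_le_rpow (le_min (by positivity) hE0.le) (min_le_right _ _) ha0.le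
    have h2 : (if E < (e : ℝ) then 1 + N ^ (2 * t + 1) * (1 / E - 1 / e) else 0) ≤
        2 * N ^ ex t := by
      split_ifs with h
      · have h3 : N ^ (2 * t + 1) * (1 / E - 1 / e) ≤ N ^ (2 * t + 1) / E := by
          rw [mul_sub, mul_one_div]
          have : 0 ≤ N ^ (2 * t + 1) * (1 / (e : ℝ)) := by positivity
          linarith
        rw [hx2] at h3
        linarith
      · linarith
    simp only
    linarith
  · intro e m hm1 hme hlow hhigh
    have hm1' : (1 : ℝ) ≤ (m : ℝ) := by exact_mod_cast hm1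
    have hme' : (m : ℝ) ≤ (e : ℝ) := by exact_mod_cast hme
    have he0 : (0 : ℝ) < (e : ℝ) := by linarith
    have hcast : ((e - m : ℕ) : ℝ) = (e : ℝ) - m := by rw [Nat.cast_sub hme]
    simp only [hcast]
    by_cases hc : (e : ℝ) ≤ E
    · have hc' : ¬ (E < (e : ℝ)) := not_lt.mpr hc
      have hc'' : ¬ (E < (e : ℝ) - m) := by linarith
      simp only [hc', hc'', if_false, add_zero]
      rw [min_eq_left hc, min_eq_left (by linarith : (e : ℝ) - m ≤ E)]
      have hk := hlow hc
      have hb1 := POT_bern ha0.le ha1 he0 (by linarith : (0 : ℝ) ≤ m) hme'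
      -- `m ≥ e^b R^(-b) N^(-a)`
      have hmm : (e : ℝ) ^ b ≤ R ^ b * m * N ^ a := by
        have h1 : (e : ℝ) ^ b ≤ (R * (m : ℝ) ^ (t + 1) * N ^ t) ^ b :=
          Real.rpow_le_rpow he0.le hk hb0.le
        have h2 : (R * (m : ℝ) ^ (t + 1) * N ^ t) ^ b = R ^ b * m * N ^ a := by
          rw [Real.mul_rpow (by positivity) (by positivity),
            Real.mul_rpow (by positivity) (by positivity)]
          congr 1
          · congr 1
            rw [← Real.rpow_natCast, ← Real.rpow_mul (by positivity)]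
            have : ((t + 1 : ℕ) : ℝ) * b = 1 := by rw [hbdef]; push_cast; field_simp
            rw [this, Real.rpow_one]
          · rw [← Real.rpow_natCast, ← Real.rpow_mul (by positivity)]
            congr 1
            rw [hbdef, hadef]; field_simp
        rw [h2] at h1; exact h1
      have hkey : 1 ≤ C1 * N ^ a * (a * m * (e : ℝ) ^ (a - 1)) := by
        have h3 : C1 * N ^ a * (a * m * (e : ℝ) ^ (a - 1)) =
            (R ^ b * m * N ^ a) * (e : ℝ) ^ (a - 1) := by
          rw [← hC1a]; ring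
        rw [h3, hab]
        calc (1 : ℝ) = (e : ℝ) ^ b * (e : ℝ) ^ (-b) := by
              rw [← Real.rpow_add he0]; simp
          _ ≤ _ := mul_le_mul_of_nonneg_right hmm (by positivity)
      have h4 : C1 * N ^ a * (a * m * (e : ℝ) ^ (a - 1)) ≤
          C1 * N ^ a * ((e : ℝ) ^ a - ((e : ℝ) - m) ^ a) :=
        mul_le_mul_of_nonneg_left hb1 (by positivity)
      linarith [mul_sub (C1 * N ^ a) ((e : ℝ) ^ a) (((e : ℝ) - m) ^ a)]
    · push Not at hc
      have hk := hhigh hc
      simp only [hc, if_true]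
      rw [min_eq_right hc.le]
      by_cases hd : E < (e : ℝ) - m
      · simp only [hd, if_true]
        rw [min_eq_right hd.le]
        have hd0 : 0 < (e : ℝ) - m := by linarith
        have h5 : 1 ≤ N ^ (2 * t + 1) * (1 / ((e : ℝ) - m) - 1 / e) := by
          have h6 : 1 / ((e : ℝ) - m) - 1 / e = m / (((e : ℝ) - m) * e) := by
            field_simp; ring
          rw [h6]
          have h7 : m / ((e : ℝ) ^ 2) ≤ m / (((e : ℝ) - m) * e) := by
            apply div_le_div_of_nonneg_left (by linarith) (by positivity)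
            nlinarith
          have h8 : 1 ≤ N ^ (2 * t + 1) * (m / ((e : ℝ) ^ 2)) := by
            rw [← mul_div_assoc, le_div_iff₀ (by positivity)]
            linarith
          exact h8.trans (mul_le_mul_of_nonneg_left h7 (by positivity))
        have h9 : N ^ (2 * t + 1) * (1 / ((e : ℝ) - m) - 1 / e) =
          N ^ (2 * t + 1) * (1 / E - 1 / e) - N ^ (2 * t + 1) * (1 / E - 1 / ((e : ℝ) - m)) := by
          ring
        linarith
      · simp only [hd, if_false, add_zero]
        push Not at hd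
        rw [min_eq_left hd]
        have h1 : ((e : ℝ) - m) ^ a ≤ E ^ a :=
          Real.rpow_le_rpow (by linarith) hd ha0.le
        have h2 : C1 * N ^ a * ((e : ℝ) - m) ^ a ≤ C1 * N ^ a * E ^ a :=
          mul_le_mul_of_nonneg_left h1 (by positivity)
        have h3 : 0 ≤ N ^ (2 * t + 1) * (1 / E - 1 / e) := by
          apply mul_nonneg (by positivity)
          have : 1 / (e : ℝ) ≤ 1 / E := one_div_le_one_div_of_le hE0 hc.le
          linarith
        linarith

end H773W
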