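import Pool.Agent.H773R2.UR.Defs

/-! Task RG: a `(t+1)`-graph without dense small pieces. -/

namespace H773W

open Finset Pool.Agent.Results.MP_9dddc4_co.UkExponent

theorem RG_cover {n m : ℕ} (W : Finset (Fin n)) (hW : W.card ≤ m) (hne : W.Nonempty) :
    ∃ w : Fin m → Fin n, W ⊆ Finset.univ.image w := by
  classical
  obtain ⟨a, ha⟩ := hne
  refine ⟨fun i => if h : i.val < W.card then (W.orderIsoOfFin rfl ⟨i.val, h⟩ : Fin n) else a, ?_⟩
  intro x hx
  rw [Finset.mem_image]
  set j := (W.orderIsoOfFin rfl).symm ⟨x, hx⟩ with hj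
  refine ⟨⟨j.val, lt_of_lt_of_le j.isLt hW⟩, Finset.mem_univ _, ?_⟩
  have hlt : j.val < W.card := j.isLt
  simp only [hlt, dif_pos]
  have : (⟨j.val, hlt⟩ : Fin W.card) = j := rfl
  simp [hj]

theorem RG : S_RG := by
  classical
  intro n m T E t X hn hX hE hlt
  have hT : 1 ≤ T := by
    rcases Nat.eq_zero_or_pos T with h | h
    · subst h
      simp only [Nat.choose_zero_right, pow_zero, mul_one] at hlt
      have : 1 ≤ n ^ m := Nat.one_le_pow _ _ hn
      omega
    · exact h
  set Ω : Finset (Finset (Fin n)) := Finset.powersetCard (t + 1) (Finset.univ \ X) with hΩ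
  have hΩc : Ω.card = (n - t).choose (t + 1) := by
    rw [hΩ, Finset.card_powersetCard, Finset.card_sdiff_of_subset (Finset.subset_univ _), hX]
    simp
  set J1 : Finset (Finset (Finset (Fin n))) :=
    (Finset.univ : Finset (Fin m → Fin n)).biUnion
      (fun w => Finset.powersetCard T (Ω ∩ Finset.powersetCard (t + 1) (Finset.univ.image w)))
    with hJ1
  have hJ1c : J1.card ≤ n ^ m * (m ^ (t + 1)).choose T := by
    rw [hJ1]
    refine le_trans Finset.card_biUnion_le ?_
    have hb : ∀ w ∈ (Finset.univ : Finset (Fin m → Fin n)),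
        (Finset.powersetCard T
          (Ω ∩ Finset.powersetCard (t + 1) (Finset.univ.image w))).card
          ≤ (m ^ (t + 1)).choose T := by
      intro w _
      rw [Finset.card_powersetCard]
      apply Nat.choose_le_choose
      calc (Ω ∩ Finset.powersetCard (t + 1) (Finset.univ.image w)).card
          ≤ (Finset.powersetCard (t + 1) (Finset.univ.image w)).card :=
            Finset.card_le_card Finset.inter_subset_right
        _ = (Finset.univ.image w).card.choose (t + 1) := Finset.card_powersetCard _ _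
        _ ≤ m.choose (t + 1) := by
            apply Nat.choose_le_choose
            refine le_trans Finset.card_image_le ?_
            simp
        _ ≤ m ^ (t + 1) := Nat.choose_le_pow _ _
    refine le_trans (Finset.sum_le_card_nsmul _ _ _ hb) ?_
    simp
  set J : Finset (Fin 1 → Finset (Finset (Fin n))) := J1.image (fun D => fun _ => D) with hJ
  have hJc : J.card ≤ n ^ m * (m ^ (t + 1)).choose T := le_trans Finset.card_image_le hJ1c
  have hJ2 : ∀ D ∈ J, ∀ i, D i ⊆ Ω ∧ (D i).card = T := by
    intro D hD i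
    obtain ⟨D', hD', rfl⟩ := Finset.mem_image.1 hD
    rw [hJ1, Finset.mem_biUnion] at hD'
    obtain ⟨w, -, hw⟩ := hD'
    rw [Finset.mem_powersetCard] at hw
    exact ⟨hw.1.trans Finset.inter_subset_left, hw.2⟩
  obtain ⟨G, hG1, hG2⟩ := union_bound Ω E T 1 (by rw [hΩc]; exact hE) J hJ2 (by
    rw [hΩc, mul_one]
    exact lt_of_le_of_lt (Nat.mul_le_mul_right _ hJc) hlt)
  refine ⟨G 0, ?_, (hG1 0).2, ?_⟩
  · intro p hp
    have h1 := (hG1 0).1 hp
    rw [hΩ, Finset.mem_powersetCard] at h1
    refine ⟨h1.2, ?_⟩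
    rw [Finset.disjoint_left]
    intro x hx hx'
    exact (Finset.mem_sdiff.1 (h1.1 hx)).2 hx'
  · intro W hW
    by_contra hcon
    push Not at hcon
    obtain ⟨D, hD, hDc⟩ := Finset.exists_subset_card_eq hcon
    have hDne : D.Nonempty := by
      rw [← Finset.card_pos]; omega
    obtain ⟨p, hp⟩ := hDne
    have hp2 := Finset.mem_filter.1 (hD hp)
    have hp3 := (hG1 0).1 hp2.1
    rw [hΩ, Finset.mem_powersetCard] at hp3
    have hWne : W.Nonempty := by
      have : p.Nonempty := by
        rw [← Finset.card_pos]; omega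
      exact this.mono hp2.2
    obtain ⟨w, hw⟩ := RG_cover W hW hWne
    have hDJ : (fun _ : Fin 1 => D) ∈ J := by
      rw [hJ, Finset.mem_image]
      refine ⟨D, ?_, rfl⟩
      rw [hJ1, Finset.mem_biUnion]
      refine ⟨w, Finset.mem_univ _, ?_⟩
      rw [Finset.mem_powersetCard]
      refine ⟨?_, hDc⟩
      intro q hq
      have hq2 := Finset.mem_filter.1 (hD hq)
      have hq3 := (hG1 0).1 hq2.1
      rw [Finset.mem_inter]
      refine ⟨hq3, ?_⟩
      rw [hΩ, Finset.mem_powersetCard] at hq3
      rw [Finset.mem_powersetCard]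
      exact ⟨hq2.2.trans hw, hq3.2⟩
    obtain ⟨i, hi⟩ := hG2 _ hDJ
    apply hi
    intro q hq
    have hi0 : i = 0 := Subsingleton.elim _ _
    rw [hi0]
    exact (Finset.mem_filter.1 (hD hq)).1

end H773W
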