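import Pool.Agent.H773R2.UR.Defs

/-! Task SFB: a bound for the number of edges by sunflower numbers. -/

namespace H773W

open Finset Pool.Agent.Results.MP_9dddc4_co.UkExponent

theorem SFB_step (n r : ℕ) (H : ES n) (c : ℕ → ℕ) (hH : IsRGraph r H)
    (hc : ∀ i < r, ¬ SF H i (c i + 1)) (k : ℕ) :
    ∀ (X : Finset (Fin n)), X.card + k = r →
      (H.filter (fun f => X ⊆ f)).card ≤ k.factorial * ∏ i ∈ Ico (r - k) r, c i := by
  classical
  induction k with
  | zero =>
    intro X hX
    simp only [Nat.factorial_zero, Nat.sub_zero, Ico_self, prod_empty, mul_one]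
    rw [card_le_one]
    intro f hf g hg
    rw [mem_filter] at hf hg
    have h1 : X = f := eq_of_subset_of_card_le hf.2 (by rw [hH f hf.1]; omega)
    have h2 : X = g := eq_of_subset_of_card_le hg.2 (by rw [hH g hg.1]; omega)
    rw [← h1, ← h2]
  | succ k ih =>
    intro X hX
    obtain ⟨i, hi⟩ : ∃ i, i = X.card := ⟨_, rfl⟩
    rw [← hi] at hX
    have hir : i < r := by omega
    set D := H.filter (fun f => X ⊆ f) with hD
    -- a maximal family with pairwise intersections `X`
    obtain ⟨M, hM, hmax⟩ := exists_max_image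
      (D.powerset.filter (fun M => ∀ f ∈ M, ∀ g ∈ M, f ≠ g → f ∩ g = X)) card
      ⟨∅, by simp⟩
    rw [mem_filter, mem_powerset] at hM
    obtain ⟨hMD, hMX⟩ := hM
    have hMc : M.card ≤ c i := by
      by_contra hcon
      push Not at hcon
      obtain ⟨M', hM', hM'c⟩ := exists_subset_card_eq (show c i + 1 ≤ M.card by omega)
      refine hc i hir ⟨X, M', hi.symm, ?_, hM'c, ?_, ?_⟩
      · intro f hf
        exact (mem_filter.1 (hMD (hM' hf))).1
      · intro f hf
        exact (mem_filter.1 (hMD (hM' hf))).2
      · intro f hf g hg hfg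
        exact hMX f (hM' hf) g (hM' hg) hfg
    set U := M.biUnion (fun f => f \ X) with hU
    have hUc : U.card ≤ (k + 1) * c i := by
      calc U.card ≤ ∑ f ∈ M, (f \ X).card := card_biUnion_le
        _ ≤ ∑ f ∈ M, (k + 1) := by
          refine sum_le_sum fun f hf => ?_
          have h1 := mem_filter.1 (hMD hf)
          rw [card_sdiff_of_subset h1.2, hH f h1.1]
          omega
        _ = M.card * (k + 1) := by rw [sum_const, smul_eq_mul]
        _ ≤ (k + 1) * c i := by rw [mul_comm]; exact Nat.mul_le_mul_left _ hMc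
    -- every edge containing `X` meets `U`
    have hmeet : ∀ f ∈ D, ∃ v ∈ U, v ∈ f := by
      intro f hf
      by_contra hcon
      push Not at hcon
      have hfD := mem_filter.1 hf
      by_cases hfM : f ∈ M
      · have hne : (f \ X).Nonempty := by
          rw [← card_pos, card_sdiff_of_subset hfD.2, hH f hfD.1]
          omega
        obtain ⟨v, hv⟩ := hne
        exact hcon v (mem_biUnion.2 ⟨f, hfM, hv⟩) (mem_sdiff.1 hv).1
      · have hint : ∀ g ∈ M, f ∩ g = X := by
          intro g hg
          apply Subset.antisymm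
          · intro w hw
            by_contra hwX
            rw [mem_inter] at hw
            exact hcon w (mem_biUnion.2 ⟨g, hg, mem_sdiff.2 ⟨hw.2, hwX⟩⟩) hw.1
          · exact subset_inter hfD.2 (mem_filter.1 (hMD hg)).2
        have hins : insert f M ∈
            D.powerset.filter (fun M => ∀ f ∈ M, ∀ g ∈ M, f ≠ g → f ∩ g = X) := by
          rw [mem_filter, mem_powerset]
          refine ⟨insert_subset hf hMD, ?_⟩
          intro a ha b hb hab
          rw [mem_insert] at ha hb
          rcases ha with rfl | ha <;> rcases hb with rfl | hb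
          · exact absurd rfl hab
          · exact hint b hb
          · rw [inter_comm]; exact hint a ha
          · exact hMX a ha b hb hab
        have := hmax _ hins
        rw [card_insert_of_notMem hfM] at this
        omega
    have hsub : D ⊆ U.biUnion (fun v => H.filter (fun f => insert v X ⊆ f)) := by
      intro f hf
      obtain ⟨v, hvU, hvf⟩ := hmeet f hf
      have hfD := mem_filter.1 hf
      rw [mem_biUnion]
      exact ⟨v, hvU, mem_filter.2 ⟨hfD.1, insert_subset hvf hfD.2⟩⟩
    have hbd : ∀ v ∈ U, (H.filter (fun f => insert v X ⊆ f)).card ≤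
        k.factorial * ∏ j ∈ Ico (i + 1) r, c j := by
      intro v hv
      obtain ⟨f, -, hvf⟩ := mem_biUnion.1 hv
      have hvX : v ∉ X := (mem_sdiff.1 hvf).2
      have h1 := ih (insert v X) (by rw [card_insert_of_notMem hvX]; omega)
      have h2 : r - k = i + 1 := by omega
      rwa [h2] at h1
    have h3 : r - (k + 1) = i := by omega
    rw [h3, prod_eq_prod_Ico_succ_bot hir, Nat.factorial_succ]
    calc D.card ≤ (U.biUnion (fun v => H.filter (fun f => insert v X ⊆ f))).card :=
          card_le_card hsub
      _ ≤ ∑ v ∈ U, (H.filter (fun f => insert v X ⊆ f)).card := card_biUnion_le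
      _ ≤ ∑ v ∈ U, k.factorial * ∏ j ∈ Ico (i + 1) r, c j := sum_le_sum hbd
      _ = U.card * (k.factorial * ∏ j ∈ Ico (i + 1) r, c j) := by rw [sum_const, smul_eq_mul]
      _ ≤ ((k + 1) * c i) * (k.factorial * ∏ j ∈ Ico (i + 1) r, c j) :=
          Nat.mul_le_mul_right _ hUc
      _ = (k + 1) * k.factorial * (c i * ∏ j ∈ Ico (i + 1) r, c j) := by ring

theorem SFB : S_SFB := by
  intro n r H c hH hc
  have h := SFB_step n r H c hH hc r ∅ (by simp)
  have e : H.filter (fun f => (∅ : Finset (Fin n)) ⊆ f) = H :=
    filter_true_of_mem (fun f _ => empty_subset f)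
  rw [Nat.sub_self, ← range_eq_Ico, e] at h
  exact h

end H773W
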