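import Pool.Agent.H773R2.UR.Defs

/-! SFC: common sunflower -/

namespace H773W

open Finset Pool.Agent.Results.MP_9dddc4_co.UkExponent

/-- the `j`-th petal with the kernel -/
def SFC_edge (i c m : ℕ) (j : Fin c) : Finset (Fin i ⊕ (Fin c × Fin m)) :=
  (univ : Finset (Fin i)).image Sum.inl ∪ (univ : Finset (Fin m)).image (fun l => Sum.inr (j, l))

theorem SFC_edge_inj {i c m : ℕ} (h : 0 < m ∨ c ≤ 1) :
    Function.Injective (SFC_edge i c m) := by
  intro j j' hj
  rcases h with h | h
  · have h1 : (Sum.inr (j, ⟨0, h⟩) : Fin i ⊕ (Fin c × Fin m)) ∈ SFC_edge i c m j := by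
      unfold SFC_edge
      rw [mem_union]
      right
      exact mem_image.2 ⟨⟨0, h⟩, mem_univ _, rfl⟩
    rw [hj] at h1
    unfold SFC_edge at h1
    simp only [mem_union, mem_image, mem_univ, true_and, reduceCtorEq, exists_false, false_or,
      Sum.inr.injEq, Prod.mk.injEq] at h1
    obtain ⟨l, h2, -⟩ := h1
    exact h2.symm
  · apply Fin.ext
    have := j.2
    have := j'.2
    omega

theorem SFC_phi {n r i c : ℕ} {H : ES n} (hH : IsRGraph r H) (hS : SF H i c) :
    ∃ φ : Fin i ⊕ (Fin c × Fin (r - i)) → Fin n, Function.Injective φ ∧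
      ∀ j, (SFC_edge i c (r - i) j).image φ ∈ H := by
  classical
  obtain ⟨X, M, hX, hM, hMc, hk, hp⟩ := hS
  set eX := Finset.equivFinOfCardEq hX with heX
  set eM := Finset.equivFinOfCardEq hMc with heM
  have hcard : ∀ f ∈ M, (f \ X).card = r - i := by
    intro f hf
    rw [Finset.card_sdiff_of_subset (hk f hf), hH f (hM hf), hX]
  set F : Fin c → Finset (Fin n) := fun j => (eM.symm j : Finset (Fin n)) with hF
  have hFM : ∀ j, F j ∈ M := fun j => (eM.symm j).2
  have hFinj : ∀ j j', F j = F j' → j = j' := by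
    intro j j' h
    exact eM.symm.injective (Subtype.ext h)
  set eP : ∀ j : Fin c, {x // x ∈ F j \ X} ≃ Fin (r - i) :=
    fun j => Finset.equivFinOfCardEq (hcard _ (hFM j)) with heP
  set φ : Fin i ⊕ (Fin c × Fin (r - i)) → Fin n :=
    Sum.elim (fun a => ((eX.symm a : _) : Fin n)) (fun q => (((eP q.1).symm q.2 : _) : Fin n))
    with hφ
  have h1 : ∀ a, φ (Sum.inl a) ∈ X := fun a => (eX.symm a).2
  have h2 : ∀ j l, φ (Sum.inr (j, l)) ∈ F j \ X := fun j l => ((eP j).symm l).2
  refine ⟨φ, ?_, ?_⟩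
  · rintro (a | ⟨j, l⟩) (b | ⟨j', l'⟩) h
    · have : a = b := eX.symm.injective (Subtype.ext h)
      rw [this]
    · have h3 := h1 a
      rw [h] at h3
      exact absurd h3 (mem_sdiff.1 (h2 j' l')).2
    · have h3 := h1 b
      rw [← h] at h3
      exact absurd h3 (mem_sdiff.1 (h2 j l)).2
    · by_cases hj : j = j'
      · subst hj
        have : l = l' := (eP j).symm.injective (Subtype.ext h)
        rw [this]
      · exfalso
        have h3 := mem_sdiff.1 (h2 j l)
        have h4 := mem_sdiff.1 (h2 j' l')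
        rw [← h] at h4
        have h5 := hp _ (hFM j) _ (hFM j') (fun he => hj (hFinj _ _ he))
        apply h3.2
        rw [← h5]
        exact mem_inter.2 ⟨h3.1, h4.1⟩
  · intro j
    have h3 : (SFC_edge i c (r - i) j).image φ = F j := by
      ext x
      constructor
      · intro hx
        obtain ⟨v, hv, rfl⟩ := mem_image.1 hx
        unfold SFC_edge at hv
        rcases mem_union.1 hv with hv | hv
        · obtain ⟨a, -, rfl⟩ := mem_image.1 hv
          exact hk _ (hFM j) (h1 a)
        · obtain ⟨l, -, rfl⟩ := mem_image.1 hv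
          exact (mem_sdiff.1 (h2 j l)).1
      · intro hx
        by_cases hxX : x ∈ X
        · refine mem_image.2 ⟨Sum.inl (eX ⟨x, hxX⟩), ?_, ?_⟩
          · unfold SFC_edge
            exact mem_union_left _ (mem_image_of_mem _ (mem_univ _))
          · simp [hφ]
        · have hx2 : x ∈ F j \ X := mem_sdiff.2 ⟨hx, hxX⟩
          refine mem_image.2 ⟨Sum.inr (j, eP j ⟨x, hx2⟩), ?_, ?_⟩
          · unfold SFC_edge
            exact mem_union_right _ (mem_image.2 ⟨_, mem_univ _, rfl⟩)
          · simp [hφ]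
    rw [h3]
    exact hM (hFM j)

theorem SFC : S_SFC := by
  classical
  intro n r i c H hH hS
  have hor : 0 < r - i ∨ c ≤ 1 := by
    by_contra hcon
    push Not at hcon
    obtain ⟨h1, h2⟩ := hcon
    obtain ⟨X, M, hX, hM, hMc, hk, hp⟩ := hS 0
    rw [← hMc] at h2
    obtain ⟨f, hf, g, hg, hfg⟩ := Finset.one_lt_card.1 h2
    have h3 : ∀ f ∈ M, f = X := by
      intro f hf
      symm
      apply Finset.eq_of_subset_of_card_le (hk f hf)
      rw [hH 0 f (hM hf), hX]
      omega
    exact hfg ((h3 f hf).trans (h3 g hg).symm)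
  have hcard : ((univ : Finset (Fin c)).image (SFC_edge i c (r - i))).card = c := by
    rw [Finset.card_image_of_injective _ (SFC_edge_inj hor)]
    simp
  have h := common_of_emb (k := 2) (by norm_num)
    ((univ : Finset (Fin c)).image (SFC_edge i c (r - i))) H (by
      intro k
      obtain ⟨φ, hφ, hφH⟩ := SFC_phi (hH k) (hS k)
      refine ⟨φ, hφ, ?_⟩
      intro e he
      unfold img at he
      obtain ⟨e', he', rfl⟩ := mem_image.1 he
      obtain ⟨j, -, rfl⟩ := mem_image.1 he'
      exact hφH j)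
  rwa [hcard] at h

end H773W
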