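import Pool.Agent.H773R2.UR.Defs

namespace H773W

open Finset Pool.Agent.Results.MP_9dddc4_co.UkExponent

theorem SFN : S_SFN := by
  intro n r i c H hH hir
  refine ⟨?_, ?_, ?_⟩
  · rintro ⟨X, M, hX, hMH, hMc, hXM, hint⟩
    have hne : ∀ f ∈ M, ∃ x, x ∈ f ∧ x ∉ X := by
      intro f hf
      by_contra hcon
      push Not at hcon
      have h1 : f ⊆ X := fun x hx => hcon x hx
      have h2 := Finset.card_le_card h1
      have h3 : f.card = r := hH f (hMH hf)
      omega
    rcases M.eq_empty_or_nonempty with hM0 | ⟨f0, hf0⟩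
    · rw [hM0, Finset.card_empty] at hMc
      omega
    haveI : Nonempty (Fin n) := ⟨(hne f0 hf0).choose⟩
    choose! g hg1 hg2 using hne
    have hle : M.card ≤ (univ : Finset (Fin n)).card := by
      refine Finset.card_le_card_of_injOn g (fun _ _ => Finset.mem_univ _) ?_
      intro f hf f' hf' h
      by_contra hne'
      have hI := hint f hf f' hf' hne'
      have h1 : g f ∈ f ∩ f' := by
        refine Finset.mem_inter.2 ⟨hg1 f hf, ?_⟩
        have h' : g f = g f' := h
        rw [h']
        exact hg1 f' hf'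
      rw [hI] at h1
      exact hg2 f hf h1
    rw [hMc, Finset.card_univ, Fintype.card_fin] at hle
    exact hle
  · rintro ⟨X, M, hX, hMH, hMc, hXM, hint⟩ c' hc'
    obtain ⟨M', hM'M, hM'c⟩ := Finset.exists_subset_card_eq (s := M) (n := c') (by rw [hMc]; exact hc')
    exact ⟨X, M', hX, hM'M.trans hMH, hM'c, fun f hf => hXM f (hM'M hf),
      fun f hf g hg => hint f (hM'M hf) g (hM'M hg)⟩
  · rintro ⟨f, hf⟩
    have hfr : f.card = r := hH f hf
    obtain ⟨X, hXf, hXc⟩ := Finset.exists_subset_card_eq (s := f) (n := i) (by rw [hfr]; omega)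
    refine ⟨X, {f}, hXc, Finset.singleton_subset_iff.2 hf, Finset.card_singleton f, ?_, ?_⟩
    · intro f' hf'
      rw [Finset.mem_singleton] at hf'
      rw [hf']
      exact hXf
    · intro f1 h1 f2 h2 h12
      rw [Finset.mem_singleton] at h1 h2
      exact absurd (h1.trans h2.symm) h12

end H773W
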