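import Pool.Agent.H773R2.UR.Defs

set_option linter.unusedVariables false

namespace H773W

open Finset Pool.Agent.Results.MP_9dddc4_co.UkExponent

theorem UB (hC : S_COS) (hP : S_POT) : S_UB := by
  intro t ht
  obtain ⟨C, hC0, h⟩ := hP t ht
  refine ⟨C, hC0, fun n hn => ?_⟩
  obtain ⟨Φ, h0, hΦ, hstep⟩ := h n hn
  have key : ∀ e, 1 ≤ e → ∀ H : Fin 2 → Finset (Finset (Fin n)),
      (∀ i, IsRGraph (2 * t + 1) (H i)) → (∀ i, (H i).card = e) →
      ∃ s : ℕ, 1 ≤ s ∧ Common H s ∧ Φ (e - s) + 1 ≤ Φ e := by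
    intro e he H hH hcard
    by_cases hE : (e : ℝ) ≤ E0 n t
    · obtain ⟨s, hs1, hs2, hs3⟩ := hC n t e H he hH hcard
      have hse : s ≤ e := by
        have h1 := hs2.le_card 0
        rwa [hcard] at h1
      refine ⟨s, hs1, hs2, hstep e s hs1 hse (fun _ => by exact_mod_cast hs3)
        (fun h' => absurd hE (not_le.mpr h'))⟩
    · push Not at hE
      obtain ⟨s, hs2, hs3⟩ := common_overlap (k := 2) (by norm_num) H hH hcard
      have hse : s ≤ e := by
        have h1 := hs2.le_card 0
        rwa [hcard] at h1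
      have hs1 : 1 ≤ s := by
        rcases Nat.eq_zero_or_pos s with h1 | h1
        · subst h1
          simp at hs3
          omega
        · exact h1
      have h4 : e ^ 2 ≤ s * n ^ (2 * t + 1) := by
        refine hs3.trans (Nat.mul_le_mul_left _ ?_)
        simpa using Nat.choose_le_pow n (2 * t + 1)
      exact ⟨s, hs1, hs2, hstep e s hs1 hse (fun h' => absurd hE (not_lt.mpr h'))
        (fun _ => by exact_mod_cast h4)⟩
  refine U_le (k := 2) (by norm_num) _ (fun e H hH hcard => ?_)
  obtain ⟨s, hs1, hs2⟩ := greedy (k := 2) (by norm_num) Φ key e H hH hcard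
  exact ⟨s, hs1, hs2.trans (by linarith [hΦ e])⟩

end H773W
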